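import Pool.Agent.H601R2.MEE.Core

/-!
# Minimum equivalent expression: weights by copies of variables
-/

namespace Pool.Agent.NPC.MEE

namespace Expr

variable {V W : Type}

/-- The list of the variable occurrences. -/
def vars : Expr V → List V
  | var v => [v]
  | neg e => vars e
  | and e f => vars e ++ vars f
  | or e f => vars e ++ vars f

theorem vars_length : ∀ e : Expr V, e.vars.length = e.occ
  | var _ => rfl
  | neg e => vars_length e
  | and e f => by simp [vars, occ, vars_length e, vars_length f]
  | or e f => by simp [vars, occ, vars_length e, vars_length f]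

/-- The list of the literal occurrences with their polarities. -/
def lits : Bool → Expr V → List (Bool × V)
  | b, var v => [(b, v)]
  | b, neg e => lits (!b) e
  | b, and e f => lits b e ++ lits b f
  | b, or e f => lits b e ++ lits b f

theorem lits_map_snd : ∀ (b : Bool) (e : Expr V), (lits b e).map Prod.snd = e.vars
  | b, var v => rfl
  | b, neg e => lits_map_snd (!b) e
  | b, and e f => by simp [vars, lits, lits_map_snd b e, lits_map_snd b f]
  | b, or e f => by simp [vars, lits, lits_map_snd b e, lits_map_snd b f]

theorem eval_congr {τ τ' : V → Bool} : ∀ {e : Expr V}, (∀ v ∈ e.vars, τ v = τ' v) →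
    e.eval τ = e.eval τ'
  | var v, h => h v (by simp [vars])
  | neg e, h => by
    simp only [eval]
    rw [eval_congr (e := e) h]
  | and e f, h => by
    simp only [vars, List.mem_append] at h
    simp only [eval]
    rw [eval_congr (e := e) (fun l hl => h l (Or.inl hl)),
      eval_congr (e := f) (fun l hl => h l (Or.inr hl))]
  | or e f, h => by
    simp only [vars, List.mem_append] at h
    simp only [eval]
    rw [eval_congr (e := e) (fun l hl => h l (Or.inl hl)),
      eval_congr (e := f) (fun l hl => h l (Or.inr hl))]

/-- Substitution. -/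
def bind (f : V → Expr W) : Expr V → Expr W
  | var v => f v
  | neg e => neg (bind f e)
  | and e e' => and (bind f e) (bind f e')
  | or e e' => or (bind f e) (bind f e')

theorem eval_bind (f : V → Expr W) (τ : W → Bool) : ∀ e : Expr V,
    (e.bind f).eval τ = e.eval (fun v => (f v).eval τ)
  | var v => rfl
  | neg e => by simp only [bind, eval, eval_bind f τ e]
  | and e e' => by simp only [bind, eval, eval_bind f τ e, eval_bind f τ e']
  | or e e' => by simp only [bind, eval, eval_bind f τ e, eval_bind f τ e']

theorem occ_bind (f : V → Expr W) : ∀ e : Expr V,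
    (e.bind f).occ = (e.vars.map (fun v => (f v).occ)).sum
  | var v => by simp [bind, vars]
  | neg e => occ_bind f e
  | and e e' => by simp [bind, occ, vars, occ_bind f e, occ_bind f e']
  | or e e' => by simp [bind, occ, vars, occ_bind f e, occ_bind f e']

/-- The conjunction of a list of expressions, with base `e`. -/
def conj (l : List (Expr V)) (e : Expr V) : Expr V := l.foldr and e

theorem eval_conj (τ : V → Bool) (e : Expr V) : ∀ l : List (Expr V),
    (conj l e).eval τ = (l.all (fun a => a.eval τ) && e.eval τ)
  | [] => by simp [conj]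
  | a :: l => by
    have ih := eval_conj τ e l
    unfold conj at *
    simp only [List.foldr_cons, eval, ih, List.all_cons, Bool.and_assoc]

theorem lits_conj (b : Bool) (e : Expr V) : ∀ l : List (Expr V),
    (conj l e).lits b = l.flatMap (lits b) ++ e.lits b
  | [] => by simp [conj]
  | a :: l => by
    have ih := lits_conj b e l
    unfold conj at *
    simp only [List.foldr_cons, lits, ih, List.flatMap_cons, List.append_assoc]

theorem toks_conj (e : Expr V) : ∀ l : List (Expr V),
    (conj l e).toks = l.flatMap (fun a => Sum.inr (some true) :: a.toks) ++ e.toks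
  | [] => by simp [conj]
  | a :: l => by
    have ih := toks_conj e l
    unfold conj at *
    simp only [List.foldr_cons, toks, ih, List.flatMap_cons, List.append_assoc,
      List.cons_append]

/-- The disjunction of a list of expressions, with base `e`. -/
def disj (l : List (Expr V)) (e : Expr V) : Expr V := l.foldr or e

theorem eval_disj (τ : V → Bool) (e : Expr V) : ∀ l : List (Expr V),
    (disj l e).eval τ = (l.any (fun a => a.eval τ) || e.eval τ)
  | [] => by simp [disj]
  | a :: l => by
    have ih := eval_disj τ e l
    unfold disj at *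
    simp only [List.foldr_cons, eval, ih, List.any_cons, Bool.or_assoc]

theorem lits_disj (b : Bool) (e : Expr V) : ∀ l : List (Expr V),
    (disj l e).lits b = l.flatMap (lits b) ++ e.lits b
  | [] => by simp [disj]
  | a :: l => by
    have ih := lits_disj b e l
    unfold disj at *
    simp only [List.foldr_cons, lits, ih, List.flatMap_cons, List.append_assoc]

theorem toks_disj (e : Expr V) : ∀ l : List (Expr V),
    (disj l e).toks = l.flatMap (fun a => Sum.inr (some false) :: a.toks) ++ e.toks
  | [] => by simp [disj]
  | a :: l => by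
    have ih := toks_disj e l
    unfold disj at *
    simp only [List.foldr_cons, toks, ih, List.flatMap_cons, List.append_assoc,
      List.cons_append]

/-- The translation to negation normal form under a substitution of variables by variables or
`true`. -/
def nnf (σ : W → Option V) : Bool → Expr W → F V
  | b, var n => match σ n with
    | none => F.const b
    | some v => F.lit b v
  | b, neg e => nnf σ (!b) e
  | true, and e f => F.and (nnf σ true e) (nnf σ true f)
  | false, and e f => F.or (nnf σ false e) (nnf σ false f)
  | true, or e f => F.or (nnf σ true e) (nnf σ true f)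
  | false, or e f => F.and (nnf σ false e) (nnf σ false f)

/-- The value of the substituted variable. -/
def subVal (σ : W → Option V) (τ : V → Bool) (n : W) : Bool := match σ n with
  | none => true
  | some v => τ v

theorem eval_nnf (σ : W → Option V) (τ : V → Bool) : ∀ (b : Bool) (e : Expr W),
    F.eval τ (nnf σ b e) = (e.eval (subVal σ τ) == b)
  | b, var n => by
    simp only [nnf, eval, subVal]
    cases σ n with
    | none => cases b <;> rfl
    | some v => rfl
  | b, neg e => by
    rw [nnf, eval_nnf σ τ (!b) e, eval]
    cases b <;> cases eval (subVal σ τ) e <;> rfl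
  | true, and e f => by
    simp only [nnf, F.eval, eval, eval_nnf σ τ true e, eval_nnf σ τ true f]
    cases eval (subVal σ τ) e <;> cases eval (subVal σ τ) f <;> rfl
  | false, and e f => by
    simp only [nnf, F.eval, eval, eval_nnf σ τ false e, eval_nnf σ τ false f]
    cases eval (subVal σ τ) e <;> cases eval (subVal σ τ) f <;> rfl
  | true, or e f => by
    simp only [nnf, F.eval, eval, eval_nnf σ τ true e, eval_nnf σ τ true f]
    cases eval (subVal σ τ) e <;> cases eval (subVal σ τ) f <;> rfl
  | false, or e f => by
    simp only [nnf, F.eval, eval, eval_nnf σ τ false e, eval_nnf σ τ false f]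
    cases eval (subVal σ τ) e <;> cases eval (subVal σ τ) f <;> rfl

theorem cost_nnf (σ : W → Option V) (wt : V → ℕ) : ∀ (b : Bool) (e : Expr W),
    F.cost wt (nnf σ b e) = (e.vars.map (fun n => (σ n).elim 0 wt)).sum
  | b, var n => by
    simp only [nnf, vars, List.map_cons, List.map_nil, List.sum_cons, List.sum_nil, Nat.add_zero]
    cases h : σ n <;> simp [F.cost, F.lits]
  | b, neg e => by rw [nnf, cost_nnf σ wt (!b) e, vars]
  | true, and e f => by
    have h1 := cost_nnf σ wt true e
    have h2 := cost_nnf σ wt true f
    simp only [F.cost] at h1 h2 ⊢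
    simp [nnf, F.lits, vars, h1, h2]
  | false, and e f => by
    have h1 := cost_nnf σ wt false e
    have h2 := cost_nnf σ wt false f
    simp only [F.cost] at h1 h2 ⊢
    simp [nnf, F.lits, vars, h1, h2]
  | true, or e f => by
    have h1 := cost_nnf σ wt true e
    have h2 := cost_nnf σ wt true f
    simp only [F.cost] at h1 h2 ⊢
    simp [nnf, F.lits, vars, h1, h2]
  | false, or e f => by
    have h1 := cost_nnf σ wt false e
    have h2 := cost_nnf σ wt false f
    simp only [F.cost] at h1 h2 ⊢
    simp [nnf, F.lits, vars, h1, h2]

end Expr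

section Copies

variable {V : Type} [DecidableEq V] {nm : V → ℕ → ℕ} {wt : V → ℕ}

/-- The conjunction of the copies of a variable of weight `n`. -/
def copies (nm : V → ℕ → ℕ) (wt : V → ℕ) (v : V) : Expr ℕ :=
  Expr.conj ((List.range (wt v - 1)).map (fun j => Expr.var (nm v (j + 1)))) (Expr.var (nm v 0))

omit [DecidableEq V] in
theorem occ_conj {W : Type} (l : List (Expr W)) (e : Expr W) :
    (Expr.conj l e).occ = (l.map Expr.occ).sum + e.occ := by
  induction l with
  | nil => simp [Expr.conj]
  | cons a l ih =>
    unfold Expr.conj at *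
    simp only [List.foldr_cons, Expr.occ, ih, List.map_cons, List.sum_cons, Nat.add_assoc]

omit [DecidableEq V] in
theorem occ_copies (hwt : ∀ v, 0 < wt v) (v : V) : (copies nm wt v).occ = wt v := by
  have := hwt v
  rw [copies, occ_conj]
  simp only [List.map_map, Expr.occ]
  have h1 : (List.range (wt v - 1)).map (Expr.occ ∘ fun j => Expr.var (nm v (j + 1))) =
      (List.range (wt v - 1)).map (fun _ => 1) := List.map_congr_left fun _ _ => rfl
  rw [h1]
  simp
  omega

omit [DecidableEq V] in
theorem eval_copies (hwt : ∀ v, 0 < wt v) (τ : ℕ → Bool) (v : V) :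
    (copies nm wt v).eval τ = true ↔ ∀ j < wt v, τ (nm v j) = true := by
  have := hwt v
  rw [copies, Expr.eval_conj, Bool.and_eq_true, List.all_eq_true]
  simp only [List.mem_map, List.mem_range, forall_exists_index, and_imp,
    forall_apply_eq_imp_iff₂, Expr.eval]
  constructor
  · rintro ⟨h1, h2⟩ j hj
    cases j with
    | zero => exact h2
    | succ j => exact h1 j (by omega)
  · intro h
    exact ⟨fun j hj => h (j + 1) (by omega), h 0 this⟩

omit [DecidableEq V] in
/-- A lightest copy of each variable in a list. -/
theorem exists_light (hwt : ∀ v, 0 < wt v) (L : List ℕ) (v : V) :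
    ∃ j < wt v, wt v * L.count (nm v j) ≤ ∑ j ∈ Finset.range (wt v), L.count (nm v j) := by
  by_contra hne
  push Not at hne
  have h1 : ∑ j ∈ Finset.range (wt v), ∑ j ∈ Finset.range (wt v), L.count (nm v j) <
      ∑ j ∈ Finset.range (wt v), wt v * L.count (nm v j) := by
    refine Finset.sum_lt_sum_of_nonempty ⟨0, Finset.mem_range.2 (hwt v)⟩ fun j hj => ?_
    exact hne j (Finset.mem_range.1 hj)
  rw [Finset.sum_const, Finset.card_range, smul_eq_mul, ← Finset.mul_sum] at h1
  exact lt_irrefl _ h1

theorem sum_count_le (hnm : ∀ v j v' j', nm v j = nm v' j' → v = v' ∧ j = j') (S : Finset V)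
    (L : List ℕ) : ∑ v ∈ S, ∑ j ∈ Finset.range (wt v), L.count (nm v j) ≤ L.length := by
  induction L with
  | nil => simp
  | cons n L ih =>
    have h1 : ∑ v ∈ S, ∑ j ∈ Finset.range (wt v), (n :: L).count (nm v j) =
        (∑ v ∈ S, ∑ j ∈ Finset.range (wt v), L.count (nm v j)) +
        ∑ v ∈ S, ∑ j ∈ Finset.range (wt v), (if nm v j = n then 1 else 0) := by
      rw [← Finset.sum_add_distrib]
      refine Finset.sum_congr rfl fun v _ => ?_
      rw [← Finset.sum_add_distrib]
      refine Finset.sum_congr rfl fun j _ => ?_
      rw [List.count_cons]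
      congr 1
      by_cases h : nm v j = n
      · simp [h]
      · rw [if_neg h, if_neg]
        simpa using fun h' => h h'.symm
    have h2 : ∑ v ∈ S, ∑ j ∈ Finset.range (wt v), (if nm v j = n then 1 else 0) ≤ 1 := by
      rw [Finset.sum_sigma', ← Finset.card_filter, Finset.card_le_one]
      rintro ⟨v, j⟩ h ⟨v', j'⟩ h'
      rw [Finset.mem_filter] at h h'
      obtain ⟨rfl, rfl⟩ := hnm _ _ _ _ (h.2.trans h'.2.symm)
      rfl
    rw [h1, List.length_cons]
    omega

open Classical in
/-- The substitution keeping one copy of each variable and setting the other copies to `true`. -/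
noncomputable def keep (nm : V → ℕ → ℕ) (js : V → ℕ) (n : ℕ) : Option V :=
  if h : ∃ v, nm v (js v) = n then some h.choose else none

omit [DecidableEq V] in
theorem keep_eq (hnm : ∀ v j v' j', nm v j = nm v' j' → v = v' ∧ j = j') (js : V → ℕ) (v : V) :
    keep nm js (nm v (js v)) = some v := by
  have h : ∃ v', nm v' (js v') = nm v (js v) := ⟨v, rfl⟩
  rw [keep, dif_pos h]
  exact congrArg some (hnm _ _ _ _ h.choose_spec).1

omit [DecidableEq V] in
theorem keep_some {js : V → ℕ} {n : ℕ} {v : V} (h : keep nm js n = some v) :
    nm v (js v) = n := by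
  unfold keep at h
  split_ifs at h with h1
  rw [← Option.some.inj h]
  exact h1.choose_spec

omit [DecidableEq V] in
theorem keep_ne (hnm : ∀ v j v' j', nm v j = nm v' j' → v = v' ∧ j = j') {js : V → ℕ} {v : V}
    {j : ℕ} (hj : j ≠ js v) : keep nm js (nm v j) = none := by
  cases h : keep nm js (nm v j) with
  | none => rfl
  | some v' =>
    obtain ⟨rfl, h2⟩ := hnm _ _ _ _ (keep_some h)
    exact absurd h2.symm hj

theorem sum_keep (hnm : ∀ v j v' j', nm v j = nm v' j' → v = v' ∧ j = j') (js : V → ℕ)
    (S : Finset V) (L : List ℕ) (hS : ∀ n ∈ L, ∀ v, keep nm js n = some v → v ∈ S) :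
    (L.map (fun n => (keep nm js n).elim 0 wt)).sum = ∑ v ∈ S, wt v * L.count (nm v (js v)) := by
  induction L with
  | nil => simp
  | cons n L ih =>
    rw [List.map_cons, List.sum_cons, ih (fun m hm => hS m (List.mem_cons_of_mem _ hm))]
    have h1 : ∑ v ∈ S, wt v * (n :: L).count (nm v (js v)) =
        (∑ v ∈ S, wt v * L.count (nm v (js v))) +
        ∑ v ∈ S, (if keep nm js n = some v then wt v else 0) := by
      rw [← Finset.sum_add_distrib]
      refine Finset.sum_congr rfl fun v _ => ?_
      rw [List.count_cons, Nat.mul_add]
      congr 1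
      by_cases h : nm v (js v) = n
      · rw [← h, keep_eq hnm]
        simp
      · rw [if_neg, if_neg, Nat.mul_zero]
        · exact fun h' => h (keep_some h')
        · simpa using fun h' => h h'.symm
    rw [h1, Nat.add_comm]
    congr 1
    cases h : keep nm js n with
    | none => simp
    | some v =>
      have := hS n List.mem_cons_self v h
      simp only [Option.elim_some, Option.some.injEq]
      rw [Finset.sum_ite_eq S v, if_pos this]

/-- The lightest copies carry at most the whole weight. -/
theorem exists_js (hwt : ∀ v, 0 < wt v)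
    (hnm : ∀ v j v' j', nm v j = nm v' j' → v = v' ∧ j = j') (L : List ℕ) :
    ∃ js : V → ℕ, (∀ v, js v < wt v) ∧
      (L.map (fun n => (keep nm js n).elim 0 wt)).sum ≤ L.length := by
  choose js hjs hle using exists_light (nm := nm) hwt L
  refine ⟨js, hjs, ?_⟩
  rw [sum_keep hnm js (L.filterMap (keep nm js)).toFinset L (by
    intro n hn v hv
    rw [List.mem_toFinset, List.mem_filterMap]
    exact ⟨n, hn, hv⟩)]
  exact (Finset.sum_le_sum fun v _ => hle v).trans (sum_count_le hnm _ L)

/-- An equivalent of the expansion gives a formula with constants of small weight. -/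
theorem exists_formula (hwt : ∀ v, 0 < wt v)
    (hnm : ∀ v j v' j', nm v j = nm v' j' → v = v' ∧ j = j') (G : Expr V) (y : Expr ℕ)
    (hy : ∀ τ, (G.bind (copies nm wt)).eval τ = y.eval τ) :
    ∃ Φ : F V, F.cost wt Φ ≤ y.occ ∧ ∀ τ, F.eval τ Φ = G.eval τ := by
  obtain ⟨js, hjs, hle⟩ := exists_js hwt hnm y.vars
  refine ⟨Expr.nnf (keep nm js) true y, ?_, fun τ => ?_⟩
  · rw [Expr.cost_nnf, ← Expr.vars_length]
    exact hle
  · rw [Expr.eval_nnf, ← hy, Expr.eval_bind]
    have h1 : (fun v => (copies nm wt v).eval (Expr.subVal (keep nm js) τ)) = τ := by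
      funext v
      rw [Bool.eq_iff_iff, eval_copies hwt]
      constructor
      · intro h
        have := h (js v) (hjs v)
        rwa [Expr.subVal, keep_eq hnm] at this
      · intro h j hj
        by_cases hjj : j = js v
        · subst hjj
          rwa [Expr.subVal, keep_eq hnm]
        · rw [Expr.subVal, keep_ne hnm hjj]
    rw [h1]
    cases G.eval τ <;> rfl

end Copies

end Pool.Agent.NPC.MEE
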