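import Pool.Agent.H601R2.MEE.Defs

/-!
# Minimum equivalent expression: the weighted lower bound
-/

namespace Pool.Agent.NPC.MEE

/-- Formulas in negation normal form, with constants. -/
inductive F (V : Type) : Type
  | const (b : Bool) : F V
  | lit (b : Bool) (v : V) : F V
  | and (e f : F V) : F V
  | or (e f : F V) : F V

namespace F

variable {V : Type}

/-- The truth value. -/
def eval (τ : V → Bool) : F V → Bool
  | const b => b
  | lit b v => τ v == b
  | and e f => eval τ e && eval τ f
  | or e f => eval τ e || eval τ f

/-- The list of the literal occurrences. -/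
def lits : F V → List (Bool × V)
  | const _ => []
  | lit b v => [(b, v)]
  | and e f => lits e ++ lits f
  | or e f => lits e ++ lits f

/-- The value depends only on the variables which occur. -/
theorem eval_congr {τ τ' : V → Bool} : ∀ {Φ : F V}, (∀ l ∈ lits Φ, τ l.2 = τ' l.2) →
    eval τ Φ = eval τ' Φ
  | const _, _ => rfl
  | lit b v, h => by
    have := h (b, v) (by simp [lits])
    simp only [eval]
    rw [this]
  | and e f, h => by
    simp only [lits, List.mem_append] at h
    simp only [eval]
    rw [eval_congr (Φ := e) (fun l hl => h l (Or.inl hl)),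
      eval_congr (Φ := f) (fun l hl => h l (Or.inr hl))]
  | or e f, h => by
    simp only [lits, List.mem_append] at h
    simp only [eval]
    rw [eval_congr (Φ := e) (fun l hl => h l (Or.inl hl)),
      eval_congr (Φ := f) (fun l hl => h l (Or.inr hl))]

/-- Monotonicity: if every literal which occurs and holds under `τ` holds under `τ'`, the value
can only go up. -/
theorem eval_mono {τ τ' : V → Bool} : ∀ {Φ : F V},
    (∀ l ∈ lits Φ, τ l.2 = l.1 → τ' l.2 = l.1) → eval τ Φ = true → eval τ' Φ = true
  | const _, _, h => h
  | lit b v, h, h' => by
    simp only [eval, beq_iff_eq] at h' ⊢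
    exact h (b, v) (by simp [lits]) h'
  | and e f, h, h' => by
    simp only [lits, List.mem_append] at h
    simp only [eval, Bool.and_eq_true] at h' ⊢
    exact ⟨eval_mono (Φ := e) (fun l hl => h l (Or.inl hl)) h'.1,
      eval_mono (Φ := f) (fun l hl => h l (Or.inr hl)) h'.2⟩
  | or e f, h, h' => by
    simp only [lits, List.mem_append] at h
    simp only [eval, Bool.or_eq_true] at h' ⊢
    exact h'.imp (eval_mono (Φ := e) (fun l hl => h l (Or.inl hl)))
      (eval_mono (Φ := f) (fun l hl => h l (Or.inr hl)))

/-- A literal which does not occur is not essential. -/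
theorem mem_of_essential [DecidableEq V] {Φ : F V} {b : Bool} {v : V} {p : V → Bool}
    (h1 : eval p Φ = true) (h2 : eval (Function.update p v (!b)) Φ = false) :
    (b, v) ∈ lits Φ := by
  by_contra hne
  have := eval_mono (τ := p) (τ' := Function.update p v (!b)) (Φ := Φ) (by
    rintro ⟨b', v'⟩ hl hl'
    by_cases hv : v' = v
    · subst hv
      simp only [Function.update_self]
      by_contra hb
      apply hne
      have : b' = b := by
        cases b <;> cases b' <;> simp at hb ⊢
      rw [← this]
      exact hl
    · simp only [Function.update_of_ne hv]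
      exact hl') h1
  rw [this] at h2
  simp at h2

/-- Weighted size. -/
def cost (w : V → ℕ) (Φ : F V) : ℕ := ((lits Φ).map (fun l => w l.2)).sum

/-- A gate. -/
def gate (g : Bool) (a b : F V) : F V := if g then and a b else or a b

theorem lits_gate (g : Bool) (a b : F V) : lits (gate g a b) = lits a ++ lits b := by
  cases g <;> rfl

theorem eval_gate (τ : V → Bool) (g : Bool) (a b : F V) :
    eval τ (gate g a b) = if g then eval τ a && eval τ b else eval τ a || eval τ b := by
  cases g <;> rfl

/-- Filling the hole of a context. -/
def fill : List (Bool × F V) → F V → F V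
  | [], a => a
  | (g, b) :: C, a => gate g b (fill C a)

/-- The literals of a context. -/
def litsC (C : List (Bool × F V)) : List (Bool × V) := C.flatMap (fun q => lits q.2)

theorem lits_fill : ∀ (C : List (Bool × F V)) (a : F V), lits (fill C a) = litsC C ++ lits a
  | [], a => rfl
  | (g, b) :: C, a => by
    rw [fill, lits_gate, lits_fill C a]
    simp [litsC]

theorem eval_fill_congr {τ : V → Bool} {a a' : F V} (h : eval τ a = eval τ a') :
    ∀ C : List (Bool × F V), eval τ (fill C a) = eval τ (fill C a')
  | [] => h
  | (g, b) :: C => by
    rw [fill, fill, eval_gate, eval_gate, eval_fill_congr h C]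

theorem eval_fill_mono {τ : V → Bool} {a a' : F V} (h : eval τ a = true → eval τ a' = true) :
    ∀ C : List (Bool × F V), eval τ (fill C a) = true → eval τ (fill C a') = true
  | [] => h
  | (g, b) :: C => by
    have ih := eval_fill_mono h C
    rw [fill, fill, eval_gate, eval_gate]
    cases g
    · simp only [Bool.false_eq_true, if_false, Bool.or_eq_true]
      exact fun h => h.imp id ih
    · simp only [if_true, Bool.and_eq_true]
      exact fun h => ⟨h.1, ih h.2⟩

/-- If neither `z` nor `w` occur in the context, its value under a change of `z` and `w` depends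
only on the value in the hole. -/
theorem eval_fill_congr' {τ τ' : V → Bool} {a a' : F V} (h : eval τ a = eval τ' a')
    (C : List (Bool × F V)) (hC : ∀ l ∈ litsC C, τ l.2 = τ' l.2) :
    eval τ (fill C a) = eval τ' (fill C a') := by
  induction C with
  | nil => exact h
  | cons q C ih =>
    obtain ⟨g, b⟩ := q
    simp only [litsC, List.flatMap_cons, List.mem_append] at hC
    rw [fill, fill, eval_gate, eval_gate, ih (fun l hl => hC l (Or.inr hl)),
      eval_congr (Φ := b) (fun l hl => hC l (Or.inl hl))]

/-- Equivalence of formulas with the same literal occurrences. -/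
def Sim (Φ Ψ : F V) : Prop := (∀ τ, eval τ Φ = eval τ Ψ) ∧ (lits Φ).Perm (lits Ψ)

variable [DecidableEq V]

/-- The number of occurrences of a variable. -/
def cnt (v : V) (Φ : F V) : ℕ := ((lits Φ).map Prod.snd).count v

theorem cnt_gate (v : V) (g : Bool) (a b : F V) : cnt v (gate g a b) = cnt v a + cnt v b := by
  simp [cnt, lits_gate]

/-- The two occurrences have a last common ancestor. -/
def HasLca (z w : V) (Φ : F V) : Prop :=
  ∃ (C : List (Bool × F V)) (g : Bool) (A B : F V), Sim Φ (fill C (gate g A B)) ∧
    cnt z A = 1 ∧ cnt w A = 0 ∧ cnt z B = 0 ∧ cnt w B = 1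

theorem hasLca_gate {z w : V} (g : Bool) (e f : F V)
    (he : cnt z e = 1 → cnt w e = 1 → HasLca z w e)
    (hf : cnt z f = 1 → cnt w f = 1 → HasLca z w f)
    (h : cnt z (gate g e f) = 1) (h' : cnt w (gate g e f) = 1) : HasLca z w (gate g e f) := by
  rw [cnt_gate] at h h'
  rcases Nat.eq_zero_or_pos (cnt z e) with h1 | h1
  · rcases Nat.eq_zero_or_pos (cnt w e) with h2 | h2
    · -- both in `f`
      obtain ⟨C, g', A, B, hS, hAB⟩ := hf (by omega) (by omega)
      refine ⟨(g, e) :: C, g', A, B, ⟨fun τ => ?_, ?_⟩, hAB⟩
      · rw [fill, eval_gate, eval_gate, hS.1 τ]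
      · rw [fill, lits_gate, lits_gate]
        exact hS.2.append_left _
    · -- `z` in `f`, `w` in `e`
      refine ⟨[], g, f, e, ⟨fun τ => ?_, ?_⟩, by omega, by omega, by omega, by omega⟩
      · rw [fill, eval_gate, eval_gate]
        cases g
        · simp [Bool.or_comm]
        · simp [Bool.and_comm]
      · rw [fill, lits_gate, lits_gate]
        exact List.perm_append_comm
  · rcases Nat.eq_zero_or_pos (cnt w e) with h2 | h2
    · exact ⟨[], g, e, f, ⟨fun τ => rfl, List.Perm.refl _⟩, by omega, by omega, by omega,
        by omega⟩
    · -- both in `e`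
      obtain ⟨C, g', A, B, hS, hAB⟩ := he (by omega) (by omega)
      refine ⟨(g, f) :: C, g', A, B, ⟨fun τ => ?_, ?_⟩, hAB⟩
      · rw [fill, eval_gate, eval_gate, hS.1 τ]
        cases g
        · simp [Bool.or_comm]
        · simp [Bool.and_comm]
      · rw [fill, lits_gate, lits_gate]
        exact (List.perm_append_comm).trans (hS.2.append_left _)

/-- The last common ancestor of the occurrences of two variables. -/
theorem hasLca {z w : V} (hzw : z ≠ w) : ∀ Φ : F V, cnt z Φ = 1 → cnt w Φ = 1 → HasLca z w Φ
  | const _, h, _ => by simp [cnt, lits] at h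
  | lit b v, h, h' => by
    exfalso
    simp only [cnt, lits, List.map_cons, List.map_nil, List.count_cons, List.count_nil,
      zero_add, beq_iff_eq] at h h'
    split_ifs at h with h1
    split_ifs at h' with h2
    exact hzw (h1.symm.trans h2)
  | and e f, h, h' => hasLca_gate true e f (hasLca hzw e) (hasLca hzw f) h h'
  | or e f, h, h' => hasLca_gate false e f (hasLca hzw e) (hasLca hzw f) h h'

theorem cnt_eq_zero {v : V} {Φ : F V} (h : cnt v Φ = 0) : ∀ l ∈ lits Φ, l.2 ≠ v := by
  intro l hl hv
  rw [cnt, List.count_eq_zero] at h
  exact h (List.mem_map.2 ⟨l, hl, hv⟩)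

/-- Splitting off a duplicate-free sublist. -/
theorem exists_rest {β : Type} {L E : List β} (hE : E.Nodup) (h : ∀ x ∈ E, x ∈ L) :
    ∃ R : List β, L.Perm (E ++ R) := by
  have h1 : E.Subperm L := hE.subperm h
  obtain ⟨R, hR⟩ := Multiset.le_iff_exists_add.1 (Multiset.coe_le.2 h1)
  refine ⟨R.toList, ?_⟩
  rw [← Multiset.coe_eq_coe, hR, ← Multiset.coe_add, Multiset.coe_toList]

/-- A Boolean case analysis. -/
theorem gate_is_or (a b c : Bool → Bool) (hc : c false = true → c true = true)
    (h : ∀ s t, c (a s && b t) = (s || t)) : False := by
  revert a b c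
  decide

/-- A Boolean case analysis. -/
theorem gate_or_vals (a b c : Bool → Bool) (q : Bool) (hc : c false = true → c true = true)
    (h : ∀ s t, c (a s || b t) = (s || (t && q))) :
    b false = false ∧ b true = q ∧ ∀ s, c (a s || false) = s := by
  revert a b c q
  decide

section Main

variable {N : (V → Bool) → Bool} {E : List (Bool × V)} {X : List V} {wt : V → ℕ} {M k : ℕ}
  {z w : V} {P0 : V → Bool} {Φ : F V}

/-- The lower bound: a light formula for `N ∧ (z ∨ (w ∧ ⋀ X))` contains a subformula with few
variables from `X`, which form a hitting set. -/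
theorem exists_hitting (hzw : z ≠ w) (hzX : z ∉ X) (hwX : w ∉ X)
    (hNz : ∀ τ b, N (Function.update τ z b) = N τ) (hNw : ∀ τ b, N (Function.update τ w b) = N τ)
    (hE : E.Nodup) (hEz : ∀ l ∈ E, l.2 ≠ z ∧ l.2 ≠ w)
    (hess : ∀ l ∈ E, ∃ p, N p = true ∧ N (Function.update p l.2 (!l.1)) = false)
    (hwt : ∀ v, v ∉ X → wt v = M) (hwt1 : ∀ v ∈ X, wt v = 1) (hk : k < M)
    (hP0 : N P0 = true) (hP0X : ∀ v ∈ X, P0 v = true)
    (hΦ : ∀ τ, eval τ Φ = (N τ && (τ z || (τ w && X.all τ))))
    (hc : cost wt Φ ≤ (E.map (fun l => wt l.2)).sum + 2 * M + k) :
    ∃ I : List V, I.length ≤ k ∧ (∀ v ∈ I, v ∈ X) ∧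
      ∀ p, N p = true → (∃ v ∈ X, p v = false) → ∃ v ∈ I, p v = false := by
  have hallz : ∀ (p : V → Bool) b, X.all (Function.update p z b) = X.all p := by
    intro p b
    rw [Bool.eq_iff_iff, List.all_eq_true, List.all_eq_true]
    refine forall₂_congr fun v hv => ?_
    rw [Function.update_of_ne (by rintro rfl; exact hzX hv)]
  have hallw : ∀ (p : V → Bool) b, X.all (Function.update p w b) = X.all p := by
    intro p b
    rw [Bool.eq_iff_iff, List.all_eq_true, List.all_eq_true]
    refine forall₂_congr fun v hv => ?_
    rw [Function.update_of_ne (by rintro rfl; exact hwX hv)]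
  have hallP : X.all P0 = true := List.all_eq_true.2 hP0X
  have hwz : w ≠ z := fun h => hzw h.symm
  -- essential literals of `N ∧ z`-like functions
  have ess : ∀ (Ψ : F V), (∀ τ, eval τ Ψ = (N τ && (τ z || (τ w && X.all τ)))) ∨
      (∀ τ, eval τ Ψ = (N τ && τ z)) → ∀ l ∈ (true, z) :: E, l ∈ lits Ψ := by
    intro Ψ hΨ l hl
    rw [List.mem_cons] at hl
    rcases hl with rfl | hl
    · refine mem_of_essential (p := Function.update (Function.update P0 w false) z true) ?_ ?_
      · rcases hΨ with h | h
        · rw [h, hNz, hNw, hP0]
          simp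
        · rw [h, hNz, hNw, hP0]
          simp
      · simp only [Bool.not_true]
        rcases hΨ with h | h
        · rw [h, Function.update_self, Function.update_of_ne hwz, Function.update_of_ne hwz,
            Function.update_self]
          simp
        · rw [h, Function.update_self]
          simp
    · obtain ⟨p, hp1, hp2⟩ := hess l hl
      have hlz := (hEz l hl).1
      refine mem_of_essential (p := Function.update p z true) ?_ ?_
      · rcases hΨ with h | h
        · rw [h, hNz, hp1, Function.update_self]
          simp
        · rw [h, hNz, hp1, Function.update_self]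
          simp
      · rw [Function.update_comm (fun h => hlz h.symm)]
        rcases hΨ with h | h
        · rw [h, hNz, hp2]
          simp
        · rw [h, hNz, hp2]
          simp
  have hwmem : (true, w) ∈ lits Φ := by
    refine mem_of_essential (p := Function.update (Function.update P0 z false) w true) ?_ ?_
    · rw [hΦ, hNw, hNz, hP0, hallw, hallz, hallP, Function.update_self]
      simp
    · simp only [Bool.not_true]
      rw [hΦ, Function.update_self, Function.update_of_ne hzw, Function.update_of_ne hzw,
        Function.update_self]
      simp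
  have hE1 : ((true, z) :: E).Nodup := by
    rw [List.nodup_cons]
    exact ⟨fun h => (hEz _ h).1 rfl, hE⟩
  have hE2 : ((true, w) :: (true, z) :: E).Nodup := by
    rw [List.nodup_cons]
    refine ⟨?_, hE1⟩
    rw [List.mem_cons, not_or]
    refine ⟨?_, fun h => (hEz _ h).2 rfl⟩
    simpa using hwz
  obtain ⟨R, hR⟩ := exists_rest hE2 (L := lits Φ) (by
    intro l hl
    rw [List.mem_cons] at hl
    rcases hl with rfl | hl
    · exact hwmem
    · exact ess Φ (Or.inl hΦ) l hl)
  have hcR : (R.map (fun l => wt l.2)).sum ≤ k := by
    have h1 : cost wt Φ = ((((true, w) :: (true, z) :: E) ++ R).map (fun l : Bool × V => wt l.2)).sum :=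
      (hR.map _).sum_eq
    rw [h1] at hc
    simp only [List.cons_append, List.map_cons, List.sum_cons, List.map_append,
      List.sum_append, hwt w hwX, hwt z hzX] at hc
    omega
  have small : ∀ (L : List (Bool × V)), (L.map (fun l => wt l.2)).sum ≤ k → ∀ l ∈ L, l.2 ∈ X := by
    intro L hL l hl
    by_contra hne
    have h1 : wt l.2 ≤ (L.map (fun l => wt l.2)).sum :=
      List.single_le_sum (by simp) _ (List.mem_map.2 ⟨l, hl, rfl⟩)
    rw [hwt _ hne] at h1
    omega
  have hcount : ∀ v, v = z ∨ v = w → cnt v Φ = 1 := by
    intro v hv
    have h1 : cnt v Φ = ((((true, w) :: (true, z) :: E) ++ R).map Prod.snd).count v := by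
      unfold cnt
      exact (hR.map Prod.snd).count_eq v
    have h2 : (R.map Prod.snd).count v = 0 := by
      rw [List.count_eq_zero]
      intro h
      obtain ⟨l, hl, hl'⟩ := List.mem_map.1 h
      have := small R hcR l hl
      rw [hl'] at this
      rcases hv with rfl | rfl
      · exact hzX this
      · exact hwX this
    have h3 : (E.map Prod.snd).count v = 0 := by
      rw [List.count_eq_zero]
      intro h
      obtain ⟨l, hl, hl'⟩ := List.mem_map.1 h
      have := hEz l hl
      rcases hv with rfl | rfl
      · exact this.1 hl'
      · exact this.2 hl'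
    rw [h1]
    simp only [List.cons_append, List.map_cons, List.map_append, List.count_cons,
      List.count_append, h2, h3]
    rcases hv with rfl | rfl
    · simp [hwz]
    · simp [hzw]
  obtain ⟨C, g, A, B, ⟨hev, hperm⟩, hA1, hA2, hB1, hB2⟩ :=
    hasLca hzw Φ (hcount z (Or.inl rfl)) (hcount w (Or.inr rfl))
  rw [lits_fill, lits_gate] at hperm
  have hsplit : ∀ v, cnt v Φ = ((litsC C).map Prod.snd).count v + (cnt v A + cnt v B) := by
    intro v
    unfold cnt
    rw [(hperm.map Prod.snd).count_eq v]
    simp
  have hCz : ∀ l ∈ litsC C, l.2 ≠ z ∧ l.2 ≠ w := by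
    intro l hl
    have h1 := hsplit z
    have h2 := hsplit w
    rw [hcount z (Or.inl rfl)] at h1
    rw [hcount w (Or.inr rfl)] at h2
    have h3 : ((litsC C).map Prod.snd).count z = 0 := by omega
    have h4 : ((litsC C).map Prod.snd).count w = 0 := by omega
    rw [List.count_eq_zero] at h3 h4
    exact ⟨fun h => h3 (List.mem_map.2 ⟨l, hl, h⟩), fun h => h4 (List.mem_map.2 ⟨l, hl, h⟩)⟩
  have hAw := cnt_eq_zero hA2
  have hBz := cnt_eq_zero hB1
  -- the values at a point with `N p = true`
  have vals : ∀ p, N p = true → ∀ s t,
      eval p (fill C (const (if g then eval (Function.update p z s) A &&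
        eval (Function.update p w t) B else eval (Function.update p z s) A ||
        eval (Function.update p w t) B))) = (s || (t && X.all p)) := by
    intro p hp s t
    have h1 := hΦ (Function.update (Function.update p z s) w t)
    rw [hev, hNw, hNz, hp, hallw, hallz, Function.update_self, Function.update_of_ne hzw,
      Function.update_self, Bool.true_and] at h1
    rw [← h1]
    refine (eval_fill_congr' ?_ C ?_).symm
    · rw [eval_gate]
      have e1 : eval (Function.update (Function.update p z s) w t) A =
          eval (Function.update p z s) A := by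
        refine eval_congr fun l hl => ?_
        rw [Function.update_of_ne (hAw l hl)]
      have e2 : eval (Function.update (Function.update p z s) w t) B =
          eval (Function.update p w t) B := by
        rw [Function.update_comm hzw]
        refine eval_congr fun l hl => ?_
        rw [Function.update_of_ne (hBz l hl)]
      rw [e1, e2]
      rfl
    · intro l hl
      rw [Function.update_of_ne (hCz l hl).2, Function.update_of_ne (hCz l hl).1]
  have cmono : ∀ p, eval p (fill C (const false)) = true → eval p (fill C (const true)) = true := by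
    intro p
    exact eval_fill_mono (by simp [eval]) C
  have hg : g = false := by
    cases g with
    | false => rfl
    | true =>
      exfalso
      refine gate_is_or (fun s => eval (Function.update P0 z s) A)
        (fun t => eval (Function.update P0 w t) B) (fun x => eval P0 (fill C (const x)))
        (cmono P0) fun s t => ?_
      have := vals P0 hP0 s t
      simp only [if_true] at this
      rw [this, hallP, Bool.and_true]
  subst hg
  have vals2 : ∀ p, N p = true → eval (Function.update p w false) B = false ∧
      eval (Function.update p w true) B = X.all p ∧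
      ∀ s, eval p (fill C (const (eval (Function.update p z s) A || false))) = s := by
    intro p hp
    exact gate_or_vals (fun s => eval (Function.update p z s) A)
      (fun t => eval (Function.update p w t) B) (fun x => eval p (fill C (const x)))
      (X.all p) (cmono p) (fun s t => by
        have := vals p hp s t
        simpa using this)
  -- cutting off `B`
  have hcut : ∀ τ, eval τ (fill C (gate false A (const false))) = (N τ && τ z) := by
    intro τ
    cases hN : N τ with
    | true =>
      have h1 := (vals2 τ hN).2.2 (τ z)
      rw [Function.update_eq_self] at h1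
      rw [Bool.true_and, ← h1]
      refine eval_fill_congr ?_ C
      rw [eval_gate]
      rfl
    | false =>
      rw [Bool.false_and, ← Bool.not_eq_true]
      intro h
      have h2 : eval τ (fill C (gate false A B)) = true := by
        refine eval_fill_mono ?_ C h
        rw [eval_gate, eval_gate]
        simp only [Bool.false_eq_true, if_false, Bool.or_eq_true, eval, or_false]
        exact fun h => Or.inl h
      rw [← hev, hΦ, hN] at h2
      simp at h2
  obtain ⟨R', hR'⟩ := exists_rest hE1 (L := lits (fill C (gate false A (const false))))
    (ess _ (Or.inr hcut))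
  have hcB : cost wt B ≤ M + k := by
    have h1 : cost wt Φ = ((litsC C).map (fun l => wt l.2)).sum + (cost wt A + cost wt B) := by
      unfold cost
      rw [(hperm.map (fun l => wt l.2)).sum_eq]
      simp
    have h2 : ((litsC C).map (fun l => wt l.2)).sum + cost wt A =
        ((((true, z) :: E) ++ R').map (fun l : Bool × V => wt l.2)).sum := by
      rw [← (hR'.map (fun l => wt l.2)).sum_eq, lits_fill, lits_gate]
      simp [cost, lits]
    simp only [List.cons_append, List.map_cons, List.sum_cons, List.map_append,
      List.sum_append, hwt z hzX] at h2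
    omega
  -- the set `I`
  let L := (lits B).filter (fun l => decide (l.2 ≠ w))
  have hL : (L.map (fun l => wt l.2)).sum ≤ k := by
    have h1 : ∀ L : List (Bool × V), (L.map (fun l => wt l.2)).sum =
        ((L.filter (fun l => decide (l.2 ≠ w))).map (fun l => wt l.2)).sum +
          M * (L.map Prod.snd).count w := by
      intro L
      induction L with
      | nil => simp
      | cons l L ih =>
        rw [List.map_cons, List.sum_cons, ih]
        by_cases hl : l.2 = w
        · rw [List.filter_cons_of_neg (by simpa using hl), List.map_cons, List.count_cons, hl]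
          simp only [BEq.rfl, if_true, hwt w hwX]
          ring
        · rw [List.filter_cons_of_pos (by simpa using hl), List.map_cons, List.map_cons,
            List.sum_cons, List.count_cons_of_ne hl]
          ring
    have h2 := h1 (lits B)
    unfold cost at hcB
    unfold cnt at hB2
    rw [hB2, mul_one] at h2
    change ((List.filter (fun l : Bool × V => decide (l.2 ≠ w)) (lits B)).map
      (fun l => wt l.2)).sum ≤ k
    omega
  have hLX := small L hL
  refine ⟨L.map Prod.snd, ?_, ?_, ?_⟩
  · refine le_trans ?_ hL
    rw [List.length_map]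
    have h1 : ∀ L : List (Bool × V), (∀ l ∈ L, l.2 ∈ X) →
        L.length ≤ (L.map (fun l => wt l.2)).sum := by
      intro L
      induction L with
      | nil => simp
      | cons l L ih =>
        intro h
        have h2 := ih (fun l' hl' => h l' (List.mem_cons_of_mem _ hl'))
        rw [List.map_cons, List.sum_cons, List.length_cons, hwt1 _ (h l List.mem_cons_self)]
        omega
    exact h1 L hLX
  · intro v hv
    obtain ⟨l, hl, rfl⟩ := List.mem_map.1 hv
    exact hLX l hl
  · intro p hp hpX
    by_contra hno
    push Not at hno
    obtain ⟨v, hv, hv'⟩ := hpX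
    have h1 : eval (Function.update p w true) B = eval (Function.update P0 w true) B := by
      refine eval_congr fun l hl => ?_
      by_cases hlw : l.2 = w
      · rw [hlw, Function.update_self, Function.update_self]
      · rw [Function.update_of_ne hlw, Function.update_of_ne hlw]
        have h3 : l ∈ L := List.mem_filter.2 ⟨hl, by simpa using hlw⟩
        have h4 := hno l.2 (List.mem_map.2 ⟨l, h3, rfl⟩)
        rw [hP0X _ (hLX l h3)]
        simpa using h4
    rw [(vals2 p hp).2.1, (vals2 P0 hP0).2.1, hallP, List.all_eq_true] at h1
    rw [h1 v hv] at hv'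
    simp at hv'

end Main

end F

end Pool.Agent.NPC.MEE
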