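import Pool.Agent.NPC.Defs

/-!
# Minimum equivalent expression: definitions
-/

namespace Pool.Agent.NPC.MEE

/-- Boolean expressions over the variables `V`, built with `¬`, `∧`, `∨`. -/
inductive Expr (V : Type) : Type
  | var (v : V) : Expr V
  | neg (e : Expr V) : Expr V
  | and (e f : Expr V) : Expr V
  | or (e f : Expr V) : Expr V

namespace Expr

variable {V : Type}

/-- The truth value of an expression under an assignment. -/
def eval (τ : V → Bool) : Expr V → Bool
  | var v => τ v
  | neg e => !(eval τ e)
  | and e f => eval τ e && eval τ f
  | or e f => eval τ e || eval τ f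

/-- The number of literal occurrences: occurrences of variables in the expression. -/
def occ : Expr V → ℕ
  | var _ => 1
  | neg e => occ e
  | and e f => occ e + occ f
  | or e f => occ e + occ f

/-- The expression in Polish (prefix) notation, as a list of symbols: `inl v` is the variable `v`,
and `inr none`, `inr (some true)`, `inr (some false)` are `¬`, `∧`, `∨`. -/
def toks : Expr V → List (V ⊕ Option Bool)
  | var v => [Sum.inl v]
  | neg e => Sum.inr none :: toks e
  | and e f => Sum.inr (some true) :: (toks e ++ toks f)
  | or e f => Sum.inr (some false) :: (toks e ++ toks f)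

theorem toks_append_inj : ∀ (a b : Expr V) (r s : List (V ⊕ Option Bool)),
    a.toks ++ r = b.toks ++ s → a = b ∧ r = s
  | var v, var v', r, s, h => by simpa [toks] using h
  | var _, neg _, _, _, h => by simp [toks] at h
  | var _, and _ _, _, _, h => by simp [toks] at h
  | var _, or _ _, _, _, h => by simp [toks] at h
  | neg _, var _, _, _, h => by simp [toks] at h
  | neg a, neg b, r, s, h => by
    simp only [toks, List.cons_append, List.cons.injEq, true_and] at h
    obtain ⟨h1, h2⟩ := toks_append_inj a b _ _ h
    exact ⟨by rw [h1], h2⟩
  | neg _, and _ _, _, _, h => by simp [toks] at h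
  | neg _, or _ _, _, _, h => by simp [toks] at h
  | and _ _, var _, _, _, h => by simp [toks] at h
  | and _ _, neg _, _, _, h => by simp [toks] at h
  | and a a', and b b', r, s, h => by
    simp only [toks, List.cons_append, List.cons.injEq, true_and, List.append_assoc] at h
    obtain ⟨h1, h2⟩ := toks_append_inj a b _ _ h
    obtain ⟨h3, h4⟩ := toks_append_inj a' b' _ _ h2
    exact ⟨by rw [h1, h3], h4⟩
  | and _ _, or _ _, _, _, h => by simp [toks] at h
  | or _ _, var _, _, _, h => by simp [toks] at h
  | or _ _, neg _, _, _, h => by simp [toks] at h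
  | or _ _, and _ _, _, _, h => by simp [toks] at h
  | or a a', or b b', r, s, h => by
    simp only [toks, List.cons_append, List.cons.injEq, true_and, List.append_assoc] at h
    obtain ⟨h1, h2⟩ := toks_append_inj a b _ _ h
    obtain ⟨h3, h4⟩ := toks_append_inj a' b' _ _ h2
    exact ⟨by rw [h1, h3], h4⟩

theorem toks_injective : Function.Injective (toks : Expr V → _) := fun a b h =>
  (toks_append_inj a b [] [] (by simpa using h)).1

end Expr

/-- Expressions are coded in Polish notation. -/
instance {V : Type} [TEnc V] : TEnc (Expr V) :=
  ⟨fun e => toT e.toks, fun _ _ h => Expr.toks_injective (TEnc.inj h)⟩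

/-- Two expressions are equivalent: they have the same value under every assignment. -/
def Equiv (x y : Expr ℕ) : Prop := ∀ τ : ℕ → Bool, x.eval τ = y.eval τ

/-- Minimum equivalent expression: an instance is an expression `x` and a number `K` (in binary);
the question is whether some expression with at most `K` literal occurrences is equivalent
to `x`. -/
def MinEquivExpr (I : Expr ℕ × ℕ) : Prop := ∃ y : Expr ℕ, y.occ ≤ I.2 ∧ Equiv I.1 y

/-- The class `Σ₂ᵖ`: `x ∈ L` iff there is a string `y₁` of length at most `p₁(|x|)` such that for
all strings `y₂` of length at most `p₂(|x|)` the polynomial-time predicate `R` accepts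
`⟨x, y₁, y₂⟩`. -/
def InSigma2 (L : Set (List Bool)) : Prop :=
  ∃ (p₁ p₂ : Polynomial ℕ) (R : List Bool → List Bool), PolyTime R ∧
    ∀ x, x ∈ L ↔ ∃ y₁ : List Bool, y₁.length ≤ p₁.eval x.length ∧
      ∀ y₂ : List Bool, y₂.length ≤ p₂.eval x.length →
        R (pairBits x (pairBits y₁ y₂)) = [true]

/-- Completeness for `Σ₂ᵖ` with respect to polynomial-time many-one reductions. -/
def Sigma2Complete (L : Set (List Bool)) : Prop :=
  InSigma2 L ∧ ∀ L', InSigma2 L' → Reduces L' L

end Pool.Agent.NPC.MEE
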