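import Pool.Agent.H601R2.MEE.Mem

/-!
# Minimum equivalent expression is `Σ₂ᵖ`-complete
-/

namespace Pool.Agent.NPC.MEE

open Turing Pool.Agent.H622R2

theorem inSigma2_of_S2 {L : Set (List Bool)} (h : S2.InSigma2 L) : InSigma2 L := by
  obtain ⟨W, p, hW, hL⟩ := h
  have pW := poly_of_polyTime hW
  have c1 : Poly (fun y : List Bool => (unpair y).1) := Poly.fst poly_unpair
  have c2 : Poly (fun y : List Bool => (unpair (unpair y).2).1) :=
    Poly.fst (poly_unpair.comp (Poly.snd poly_unpair))
  have c3 : Poly (fun y : List Bool => (unpair (unpair y).2).2) :=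
    Poly.snd (poly_unpair.comp (Poly.snd poly_unpair))
  have hp : Poly (fun y : List Bool => p.eval (unpair y).1.length) :=
    UPoly.toPoly (UPoly.eval (UPoly.length c1) p)
  have t1 : PP (fun y : List Bool => (unpair (unpair y).2).1.length =
      p.eval (unpair y).1.length) := PP.eq (Poly.length c2) hp
  have t2 : PP (fun y : List Bool => (unpair (unpair y).2).2.length ≠
      p.eval (unpair y).1.length) := PP.ne (Poly.length c3) hp
  have t3 : PP (fun y : List Bool => W (pairBits (unpair y).1 ((unpair (unpair y).2).1 ++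
      (unpair (unpair y).2).2)) = [true]) :=
    PP.eq (pW.comp (poly_pairBits c1 (Poly.append c2 c3))) (Poly.const _)
  obtain ⟨b, hb, hb'⟩ := PP.and t1 (PP.or t2 t3)
  refine ⟨p, p, fun y => [b y], polyTime_of_poly hb, fun x => ?_⟩
  have key : ∀ y₁ y₂ : List Bool, [b (pairBits x (pairBits y₁ y₂))] = [true] ↔
      (y₁.length = p.eval x.length ∧ (y₂.length ≠ p.eval x.length ∨
        W (pairBits x (y₁ ++ y₂)) = [true])) := by
    intro y₁ y₂
    rw [List.cons.injEq, hb']
    simp only [unpair_pairBits, and_true]
  rw [hL x]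
  simp only [key]
  constructor
  · rintro ⟨u, hu, h⟩
    refine ⟨u, hu.le, fun v _ => ⟨hu, ?_⟩⟩
    by_cases hv : v.length = p.eval x.length
    · exact Or.inr (h v hv)
    · exact Or.inl hv
  · rintro ⟨u, _, h⟩
    refine ⟨u, (h [] (by simp)).1, fun v hv => ?_⟩
    rcases (h v hv.le).2 with h1 | h1
    · exact absurd hv h1
    · exact h1

theorem inSigma2_to_S2 {L : Set (List Bool)} (h : InSigma2 L) : S2.InSigma2 L := by
  obtain ⟨p₁, p₂, R, hR, hL⟩ := h
  have pR := poly_of_polyTime hR
  have c1 : Poly (fun y : List Bool => (unpair y).1) := Poly.fst poly_unpair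
  have hhalf : Poly (fun y : List Bool => (unpair y).2.length / 2) :=
    Poly.div (Poly.length (Poly.snd poly_unpair)) (Poly.const 2)
  have c2 : Poly (fun y : List Bool =>
      (unpair ((unpair y).2.take ((unpair y).2.length / 2))).1) :=
    Poly.fst (poly_unpair.comp (P2.poly_take (Poly.snd poly_unpair) hhalf))
  have c3 : Poly (fun y : List Bool =>
      (unpair ((unpair y).2.drop ((unpair y).2.length / 2))).1) :=
    Poly.fst (poly_unpair.comp (P2.poly_drop (Poly.snd poly_unpair) hhalf))
  have t1 : PP (fun y : List Bool =>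
      (unpair ((unpair y).2.take ((unpair y).2.length / 2))).1.length ≤
      p₁.eval (unpair y).1.length) :=
    PP.le (Poly.length c2) (UPoly.toPoly (UPoly.eval (UPoly.length c1) p₁))
  have t2 : PP (fun y : List Bool => p₂.eval (unpair y).1.length <
      (unpair ((unpair y).2.drop ((unpair y).2.length / 2))).1.length) :=
    PP.lt (UPoly.toPoly (UPoly.eval (UPoly.length c1) p₂)) (Poly.length c3)
  have t3 : PP (fun y : List Bool => R (pairBits (unpair y).1 (pairBits
      (unpair ((unpair y).2.take ((unpair y).2.length / 2))).1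
      (unpair ((unpair y).2.drop ((unpair y).2.length / 2))).1)) = [true]) :=
    PP.eq (pR.comp (poly_pairBits c1 (poly_pairBits c2 c3))) (Poly.const _)
  obtain ⟨b, hb, hb'⟩ := PP.and t1 (PP.or t2 t3)
  refine ⟨fun y => [b y], Polynomial.C 2 * p₁ + Polynomial.C 2 * p₂ + Polynomial.C 1,
    polyTime_of_poly hb, fun x => ?_⟩
  have key : ∀ u v : List Bool, u.length = v.length →
      ([b (pairBits x (u ++ v))] = [true] ↔ ((unpair u).1.length ≤ p₁.eval x.length ∧
        (p₂.eval x.length < (unpair v).1.length ∨
          R (pairBits x (pairBits (unpair u).1 (unpair v).1)) = [true]))) := by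
    intro u v huv
    have e2 : (u ++ v).length / 2 = u.length := by
      rw [List.length_append]
      omega
    rw [List.cons.injEq, hb']
    simp only [unpair_pairBits, and_true, e2, List.take_left', List.drop_left']
  have hp : (Polynomial.C 2 * p₁ + Polynomial.C 2 * p₂ + Polynomial.C 1).eval x.length =
      2 * p₁.eval x.length + 2 * p₂.eval x.length + 1 := by simp
  rw [hp, hL x]
  constructor
  · rintro ⟨y₁, h1, h2⟩
    have hu : (pairBits y₁ (List.replicate (2 * p₁.eval x.length + 2 * p₂.eval x.length + 1 -
        (2 * y₁.length + 1)) false)).length =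
        2 * p₁.eval x.length + 2 * p₂.eval x.length + 1 := by
      rw [length_pairBits, List.length_replicate]
      omega
    refine ⟨_, hu, fun v hv => ?_⟩
    rw [key _ _ (hu.trans hv.symm), unpair_pairBits]
    refine ⟨h1, ?_⟩
    by_cases hlt : p₂.eval x.length < (unpair v).1.length
    · exact Or.inl hlt
    · exact Or.inr (h2 _ (by omega))
  · rintro ⟨u, hu, h⟩
    have hv : ∀ y₂ : List Bool, y₂.length ≤ p₂.eval x.length →
        (pairBits y₂ (List.replicate (2 * p₁.eval x.length + 2 * p₂.eval x.length + 1 -
        (2 * y₂.length + 1)) false)).length =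
        2 * p₁.eval x.length + 2 * p₂.eval x.length + 1 := by
      intro y₂ h2
      rw [length_pairBits, List.length_replicate]
      omega
    have h' : ∀ y₂ : List Bool, y₂.length ≤ p₂.eval x.length →
        ((unpair u).1.length ≤ p₁.eval x.length ∧
          (p₂.eval x.length < y₂.length ∨
            R (pairBits x (pairBits (unpair u).1 y₂)) = [true])) := by
      intro y₂ h2
      have h3 := h _ (hv y₂ h2)
      rw [key _ _ (hu.trans (hv y₂ h2).symm), unpair_pairBits] at h3
      exact h3
    refine ⟨(unpair u).1, (h' [] (by simp)).1, fun y₂ h2 => ?_⟩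
    rcases (h' y₂ h2).2 with h3 | h3
    · omega
    · exact h3

/-- Minimum equivalent expression is `Σ₂ᵖ`-complete with respect to polynomial-time many-one
reductions. -/
theorem sigma2Complete_MEE : Sigma2Complete (lang MinEquivExpr) :=
  ⟨inSigma2_of_S2 inSigma2_MEE, fun L hL =>
    (S2.HardS2.toSigma2HardP hardS2_MEE) L (inSigma2_to_S2 hL)⟩

end Pool.Agent.NPC.MEE
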