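import Pool.Agent.H601R2.MEE.Copies
import Pool.Agent.H596R2.Sigma2

/-!
# Minimum equivalent expression: the formula of the reduction
-/

namespace Pool.Agent.NPC.MEE

namespace Expr

variable {V : Type}

/-- The conjunction of a non-empty list of expressions (for the empty list the value is `e`). -/
def conjL (e : Expr V) : List (Expr V) → Expr V
  | [] => e
  | a :: l => conj l a

theorem eval_conjL (τ : V → Bool) {e : Expr V} : ∀ {l : List (Expr V)}, l ≠ [] →
    ((conjL e l).eval τ = true ↔ ∀ a ∈ l, a.eval τ = true)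
  | [], h => absurd rfl h
  | a :: l, _ => by
    rw [conjL, eval_conj, Bool.and_eq_true, List.all_eq_true, List.forall_mem_cons]
    exact and_comm

theorem perm_lits_conjL (b : Bool) {e : Expr V} : ∀ {l : List (Expr V)}, l ≠ [] →
    ((conjL e l).lits b).Perm (l.flatMap (lits b))
  | [], h => absurd rfl h
  | a :: l, _ => by
    rw [conjL, lits_conj, List.flatMap_cons]
    exact List.perm_append_comm

end Expr

/-- The variables of the reduction. -/
inductive V : Type
  | x (i : Bool × ℕ)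
  | al (i : Bool × ℕ) (c : ℕ)
  | be (i : Bool × ℕ) (c : ℕ)
  | ao (o : ℕ × ℕ)
  | de (o : ℕ × ℕ)
  | d (o o' : ℕ × ℕ)
  | z
  | w
  deriving DecidableEq

open V Expr

/-- Clauses. -/
abbrev Cls : Type := List (List (Bool × ℕ))

/-- The indices of the existential literals (with a dummy variable). -/
def Idx (s : ℕ) : List (Bool × ℕ) := (List.range (s + 1)).flatMap (fun t => [(true, t), (false, t)])

theorem mem_Idx {s : ℕ} {i : Bool × ℕ} : i ∈ Idx s ↔ i.2 ≤ s := by
  obtain ⟨b, t⟩ := i
  simp only [Idx, List.mem_flatMap, List.mem_range, List.mem_cons, Prod.mk.injEq,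
    List.not_mem_nil, or_false]
  constructor
  · rintro ⟨t', h, ⟨_, rfl⟩ | ⟨_, rfl⟩⟩ <;> omega
  · intro h
    refine ⟨t, by omega, ?_⟩
    cases b <;> simp

theorem Idx_ne_nil (s : ℕ) : Idx s ≠ [] := by
  intro h
  have : (true, 0) ∈ Idx s := mem_Idx.2 (Nat.zero_le _)
  rw [h] at this
  simp at this

theorem Idx_nodup (s : ℕ) : (Idx s).Nodup := by
  rw [Idx, List.nodup_flatMap]
  refine ⟨fun t _ => by simp, ?_⟩
  refine List.Nodup.pairwise_of_forall_ne List.nodup_range fun a _ b _ hab => ?_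
  rw [Function.onFun, List.disjoint_iff_ne]
  intro p hp q hq hpq
  subst hpq
  simp only [List.mem_cons, List.not_mem_nil, or_false] at hp hq
  rcases hp with rfl | rfl <;> rcases hq with h | h <;> simp_all

/-- The occurrences of literals: positions together with the literal. -/
def occs (Cl : Cls) : List ((ℕ × ℕ) × (Bool × ℕ)) :=
  Cl.zipIdx.flatMap (fun p => p.1.zipIdx.map (fun q => ((p.2, q.2), q.1)))

theorem mem_occs {Cl : Cls} {o : ℕ × ℕ} {l : Bool × ℕ} :
    (o, l) ∈ occs Cl ↔ ∃ cl, Cl[o.1]? = some cl ∧ cl[o.2]? = some l := by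
  obtain ⟨c, j⟩ := o
  rw [occs, List.mem_flatMap]
  constructor
  · rintro ⟨⟨cl, c'⟩, h1, h2⟩
    rw [List.mem_map] at h2
    obtain ⟨⟨l', j'⟩, h2, h3⟩ := h2
    rw [List.mem_zipIdx_iff_getElem?] at h1 h2
    simp only [Prod.mk.injEq] at h1 h2 h3
    obtain ⟨⟨rfl, rfl⟩, rfl⟩ := h3
    exact ⟨cl, h1, h2⟩
  · rintro ⟨cl, h1, h2⟩
    refine ⟨(cl, c), ?_, List.mem_map.2 ⟨(l, j), ?_, rfl⟩⟩
    · rw [List.mem_zipIdx_iff_getElem?]
      exact h1
    · rw [List.mem_zipIdx_iff_getElem?]
      exact h2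

/-- The block of an occurrence of a literal. -/
def blk (s : ℕ) (Cl : Cls) (o : ℕ × ℕ) (l : Bool × ℕ) : Expr V :=
  if l.2 < s then neg (var (ao o))
  else if l.1 = true then
    conj (((occs Cl).filter (fun q => decide (q.2 = (false, l.2)))).map
      (fun q => var (d o q.1))) (var (de o))
  else conj (((occs Cl).filter (fun q => decide (q.2 = (true, l.2)))).map
      (fun q => neg (var (d q.1 o)))) (var (de o))

/-- First kind of conjunct. -/
def fA (Cl : Cls) (i : Bool × ℕ) : Expr V :=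
  or (var (x i)) (conjL (var z) ((List.range Cl.length).map (fun c => var (be i c))))

/-- Second kind of conjunct. -/
def fB (s : ℕ) (Cl : Cls) (i : Bool × ℕ) : Expr V :=
  or (neg (var (x i))) (conjL (var z) ((List.range Cl.length).map (fun c => var (al i c)) ++
    ((occs Cl).filter (fun q => decide (q.2 = i ∧ i.2 < s))).map (fun q => var (ao q.1))))

/-- Third kind of conjunct. -/
def fC (s : ℕ) (Cl : Cls) (c : ℕ) (cl : List (Bool × ℕ)) : Expr V :=
  disj (cl.zipIdx.map (fun q => blk s Cl (c, q.2) q.1) ++ (List.range (s + 1)).map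
    (fun t => and (neg (var (al (true, t) c))) (neg (var (al (false, t) c)))))
    (conjL (var z) ((Idx s).map (fun i => neg (var (be i c)))))

/-- The list of the conjuncts. -/
def fL (s : ℕ) (Cl : Cls) : List (Expr V) :=
  (Idx s).map (fA Cl) ++ ((Idx s).map (fB s Cl) ++ Cl.zipIdx.map (fun p => fC s Cl p.2 p.1))

/-- The formula `N`. -/
def fN (s : ℕ) (Cl : Cls) : Expr V := conjL (var z) (fL s Cl)

theorem fL_ne_nil (s : ℕ) (Cl : Cls) : fL s Cl ≠ [] := by
  unfold fL
  simp [Idx_ne_nil]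

/-- The meaning of a block. -/
def Blk (s : ℕ) (Cl : Cls) (τ : V → Bool) (o : ℕ × ℕ) (l : Bool × ℕ) : Prop :=
  (l.2 < s ∧ τ (ao o) = false) ∨ (s ≤ l.2 ∧ τ (de o) = true ∧
    (∀ o', l.1 = true → (o', (false, l.2)) ∈ occs Cl → τ (d o o') = true) ∧
    ∀ o', l.1 = false → (o', (true, l.2)) ∈ occs Cl → τ (d o' o) = false)

theorem eval_blk {s : ℕ} {Cl : Cls} {τ : V → Bool} {o : ℕ × ℕ} {l : Bool × ℕ} :
    (blk s Cl o l).eval τ = true ↔ Blk s Cl τ o l := by
  unfold blk Blk
  by_cases h1 : l.2 < s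
  · rw [if_pos h1]
    simp only [Expr.eval, h1, true_and, Bool.not_eq_true']
    constructor
    · exact Or.inl
    · rintro (h | h)
      · exact h
      · omega
  · rw [if_neg h1]
    have h2 : s ≤ l.2 := by omega
    by_cases h3 : l.1 = true
    · rw [if_pos h3, eval_conj, Bool.and_eq_true, List.all_eq_true]
      simp only [List.mem_map, List.mem_filter, decide_eq_true_eq, forall_exists_index, and_imp,
        Prod.forall, Expr.eval, h1, false_and, false_or, h2, true_and, h3, forall_const,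
        Bool.true_eq_false, false_imp_iff, implies_true, and_true]
      constructor
      · rintro ⟨h4, h5⟩
        refine ⟨h5, fun a b hab => ?_⟩
        exact h4 _ a b false l.2 hab rfl rfl
      · rintro ⟨h4, h5⟩
        refine ⟨?_, h4⟩
        rintro _ a b b' v hab h6 rfl
        simp only [Prod.mk.injEq] at h6
        obtain ⟨rfl, rfl⟩ := h6
        exact h5 a b hab
    · rw [if_neg h3, eval_conj, Bool.and_eq_true, List.all_eq_true]
      have h3' : l.1 = false := by simpa using h3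
      simp only [List.mem_map, List.mem_filter, decide_eq_true_eq, forall_exists_index, and_imp,
        Prod.forall, Expr.eval, h1, false_and, false_or, h2, true_and, h3', forall_const,
        Bool.false_eq_true, false_imp_iff, implies_true]
      constructor
      · rintro ⟨h4, h5⟩
        refine ⟨h5, fun a b hab => ?_⟩
        have := h4 _ a b true l.2 hab rfl rfl
        simpa [Expr.eval] using this
      · rintro ⟨h4, h5⟩
        refine ⟨?_, h4⟩
        rintro _ a b b' v hab h6 rfl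
        simp only [Prod.mk.injEq] at h6
        obtain ⟨rfl, rfl⟩ := h6
        simpa [Expr.eval] using h5 a b hab

/-- The meaning of the formula `N`. -/
structure Good (s : ℕ) (Cl : Cls) (τ : V → Bool) : Prop where
  n1 : ∀ i : Bool × ℕ, i.2 ≤ s → τ (x i) = true ∨ ∀ c < Cl.length, τ (be i c) = true
  n2 : ∀ i : Bool × ℕ, i.2 ≤ s → τ (x i) = false ∨ ((∀ c < Cl.length, τ (al i c) = true) ∧
    ∀ o, i.2 < s → (o, i) ∈ occs Cl → τ (ao o) = true)
  n3 : ∀ c cl, Cl[c]? = some cl → (∃ j l, cl[j]? = some l ∧ Blk s Cl τ (c, j) l) ∨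
    (∃ t ≤ s, τ (al (true, t) c) = false ∧ τ (al (false, t) c) = false) ∨
    ∀ i : Bool × ℕ, i.2 ≤ s → τ (be i c) = false

theorem eval_fN {s : ℕ} {Cl : Cls} (hCl : Cl ≠ []) {τ : V → Bool} :
    (fN s Cl).eval τ = true ↔ Good s Cl τ := by
  have hr : (List.range Cl.length).map (fun c => c) ≠ [] := by simpa using hCl
  have hA : ∀ i, (fA Cl i).eval τ = true ↔
      (τ (x i) = true ∨ ∀ c < Cl.length, τ (be i c) = true) := by
    intro i
    rw [fA, Expr.eval, Bool.or_eq_true, eval_conjL τ (by simpa using hCl)]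
    simp only [List.mem_map, List.mem_range, forall_exists_index, and_imp,
      forall_apply_eq_imp_iff₂, Expr.eval]
  have hB : ∀ i, (fB s Cl i).eval τ = true ↔
      (τ (x i) = false ∨ ((∀ c < Cl.length, τ (al i c) = true) ∧
        ∀ o, i.2 < s → (o, i) ∈ occs Cl → τ (ao o) = true)) := by
    intro i
    rw [fB, Expr.eval, Bool.or_eq_true, eval_conjL τ (by simp [hCl])]
    simp only [List.mem_append, List.mem_map, List.mem_range, List.mem_filter,
      decide_eq_true_eq, Expr.eval, Bool.not_eq_true', Prod.exists]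
    refine or_congr Iff.rfl ?_
    constructor
    · intro h
      refine ⟨fun c hc => h _ (Or.inl ⟨c, hc, rfl⟩), fun o hi ho => ?_⟩
      exact h _ (Or.inr ⟨o.1, o.2, i.1, i.2, ⟨ho, rfl, hi⟩, rfl⟩)
    · rintro ⟨h1, h2⟩ a (⟨c, hc, rfl⟩ | ⟨o1, o2, i1, i2, ⟨ho, h3, h4⟩, rfl⟩)
      · exact h1 c hc
      · rw [h3] at ho
        exact h2 (o1, o2) h4 ho
  have hC : ∀ c cl, (fC s Cl c cl).eval τ = true ↔
      ((∃ j l, cl[j]? = some l ∧ Blk s Cl τ (c, j) l) ∨
        (∃ t ≤ s, τ (al (true, t) c) = false ∧ τ (al (false, t) c) = false) ∨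
        ∀ i : Bool × ℕ, i.2 ≤ s → τ (be i c) = false) := by
    intro c cl
    rw [fC, eval_disj, Bool.or_eq_true, eval_conjL τ (by simp [Idx_ne_nil]), List.any_append,
      Bool.or_eq_true, List.any_eq_true, List.any_eq_true, or_assoc]
    refine or_congr ?_ (or_congr ?_ ?_)
    · constructor
      · rintro ⟨a, ha, ha'⟩
        rw [List.mem_map] at ha
        obtain ⟨⟨l, j⟩, hq, rfl⟩ := ha
        rw [List.mem_zipIdx_iff_getElem?] at hq
        exact ⟨j, l, hq, eval_blk.1 ha'⟩
      · rintro ⟨j, l, hq, h⟩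
        refine ⟨_, List.mem_map.2 ⟨(l, j), ?_, rfl⟩, eval_blk.2 h⟩
        rw [List.mem_zipIdx_iff_getElem?]
        exact hq
    · constructor
      · rintro ⟨a, ha, ha'⟩
        rw [List.mem_map] at ha
        obtain ⟨t, ht, rfl⟩ := ha
        simp only [Expr.eval, Bool.and_eq_true, Bool.not_eq_true'] at ha'
        exact ⟨t, by have := List.mem_range.1 ht; omega, ha'⟩
      · rintro ⟨t, ht, h⟩
        refine ⟨_, List.mem_map.2 ⟨t, List.mem_range.2 (by omega), rfl⟩, ?_⟩
        simp only [Expr.eval, Bool.and_eq_true, Bool.not_eq_true']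
        exact h
    · simp only [List.mem_map, forall_exists_index, and_imp, forall_apply_eq_imp_iff₂, Expr.eval,
        Bool.not_eq_true', mem_Idx]
  rw [fN, eval_conjL τ (fL_ne_nil s Cl)]
  constructor
  · intro h
    refine ⟨fun i hi => (hA i).1 (h _ ?_), fun i hi => (hB i).1 (h _ ?_),
      fun c cl hc => (hC c cl).1 (h _ ?_)⟩
    · exact List.mem_append_left _ (List.mem_map.2 ⟨i, mem_Idx.2 hi, rfl⟩)
    · exact List.mem_append_right _ (List.mem_append_left _ (List.mem_map.2
        ⟨i, mem_Idx.2 hi, rfl⟩))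
    · refine List.mem_append_right _ (List.mem_append_right _ (List.mem_map.2
        ⟨(cl, c), ?_, rfl⟩))
      rw [List.mem_zipIdx_iff_getElem?]
      exact hc
  · rintro ⟨h1, h2, h3⟩ a ha
    rw [fL, List.mem_append, List.mem_append, List.mem_map, List.mem_map, List.mem_map] at ha
    rcases ha with ⟨i, hi, rfl⟩ | ⟨i, hi, rfl⟩ | ⟨⟨cl, c⟩, hc, rfl⟩
    · exact (hA i).2 (h1 i (mem_Idx.1 hi))
    · exact (hB i).2 (h2 i (mem_Idx.1 hi))
    · rw [List.mem_zipIdx_iff_getElem?] at hc
      exact (hC c cl).2 (h3 c cl hc)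

/-- Soundness of the formula `N`. -/
theorem Good.sound {s : ℕ} {Cl : Cls} {τ : V → Bool} (h : Good s Cl τ) {i0 : Bool × ℕ}
    (hi0 : i0.2 ≤ s) (hx : τ (x i0) = false)
    (hpair : ∀ t ≤ s, τ (x (true, t)) = true ∨ τ (x (false, t)) = true) :
    ∃ X : ℕ → Bool, ∀ cl ∈ Cl, ∃ l ∈ cl, (l.2 < s ∧ τ (x l) = false) ∨
      (s ≤ l.2 ∧ X l.2 = l.1) := by
  classical
  refine ⟨fun v => decide (∃ o, (o, (true, v)) ∈ occs Cl ∧ Blk s Cl τ o (true, v)), ?_⟩
  intro cl hcl
  obtain ⟨c, hc, hc'⟩ := List.getElem_of_mem hcl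
  have hcc : Cl[c]? = some cl := by rw [List.getElem?_eq_getElem hc, hc']
  have hblk : ∃ j l, cl[j]? = some l ∧ Blk s Cl τ (c, j) l := by
    rcases h.n3 c cl hcc with h1 | ⟨t, ht, h1, h2⟩ | h1
    · exact h1
    · exfalso
      rcases hpair t ht with h3 | h3
      · rcases h.n2 (true, t) ht with h4 | ⟨h4, _⟩
        · rw [h4] at h3
          simp at h3
        · rw [h4 c hc] at h1
          simp at h1
      · rcases h.n2 (false, t) ht with h4 | ⟨h4, _⟩
        · rw [h4] at h3
          simp at h3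
        · rw [h4 c hc] at h2
          simp at h2
    · exfalso
      rcases h.n1 i0 hi0 with h2 | h2
      · rw [h2] at hx
        simp at hx
      · have h3 := h2 c hc
        rw [h1 i0 hi0] at h3
        simp at h3
  obtain ⟨j, l, hj, hb⟩ := hblk
  have hocc : ((c, j), l) ∈ occs Cl := mem_occs.2 ⟨cl, hcc, hj⟩
  refine ⟨l, List.mem_of_getElem? hj, ?_⟩
  have hb' := hb
  rcases hb with ⟨h1, h2⟩ | ⟨h1, h2, h3, h4⟩
  · left
    refine ⟨h1, ?_⟩
    rcases h.n2 l (by omega) with h5 | ⟨_, h5⟩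
    · exact h5
    · have := h5 (c, j) h1 hocc
      rw [this] at h2
      simp at h2
  · right
    refine ⟨h1, ?_⟩
    obtain ⟨b, v⟩ := l
    simp only at h1 h3 h4 ⊢
    cases b with
    | true =>
      rw [decide_eq_true_eq]
      exact ⟨(c, j), hocc, hb'⟩
    | false =>
      rw [decide_eq_false_iff_not]
      rintro ⟨o, ho, ho'⟩
      rcases ho' with ⟨g1, _⟩ | ⟨g1, g2, g3, g4⟩
      · simp only at g1
        omega
      · have e1 := g3 (c, j) rfl hocc
        have e2 := h4 o rfl ho
        rw [e1] at e2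
        simp at e2

/-! ### Points -/

/-- The basic point. -/
def P0 : V → Bool
  | x _ => true
  | al _ _ => true
  | be _ _ => false
  | ao _ => true
  | de _ => false
  | d _ _ => false
  | z => false
  | w => false

/-- The basic point with one clause satisfied by the block `o`. -/
def P0' (o₀ : ℕ × ℕ) (b : Bool) : V → Bool
  | x _ => true
  | al _ _ => true
  | be _ c => decide (c = o₀.1)
  | ao _ => true
  | de o => decide (o = o₀)
  | d _ _ => b
  | z => false
  | w => false

/-- The point where two complementary literals are asserted. -/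
def Pt (t : ℕ) : V → Bool
  | x i => decide (i.2 ≠ t)
  | al i _ => decide (i.2 ≠ t)
  | be i _ => decide (i.2 = t)
  | ao _ => true
  | de _ => false
  | d _ _ => false
  | z => false
  | w => false

/-- The point where two complementary literals are asserted and one clause is satisfied by the
block `o`. -/
def Pt' (t : ℕ) (o₀ : ℕ × ℕ) : V → Bool
  | x i => decide (i.2 ≠ t)
  | al i c => decide (i.2 ≠ t ∨ c = o₀.1)
  | be i _ => decide (i.2 = t)
  | ao o => decide (o ≠ o₀)
  | de _ => false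
  | d _ _ => false
  | z => false
  | w => false

/-- The literal at a position. -/
def litAt (Cl : Cls) (o : ℕ × ℕ) : Bool × ℕ := (Cl.getD o.1 []).getD o.2 (true, 0)

theorem litAt_eq {Cl : Cls} {o : ℕ × ℕ} {l : Bool × ℕ} (h : (o, l) ∈ occs Cl) :
    litAt Cl o = l := by
  obtain ⟨cl, h1, h2⟩ := mem_occs.1 h
  simp [litAt, List.getD_eq_getElem?_getD, h1, h2]

/-- The point given by a satisfying assignment. -/
def Pe (s : ℕ) (Cl : Cls) (e X : ℕ → Bool) : V → Bool
  | x i => decide (e i.2 ≠ i.1)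
  | al _ _ => true
  | be i _ => decide (e i.2 = i.1)
  | ao o => decide (S2.mix s e X (litAt Cl o).2 ≠ (litAt Cl o).1)
  | de o => decide (S2.mix s e X (litAt Cl o).2 = (litAt Cl o).1)
  | d o _ => X (litAt Cl o).2
  | z => false
  | w => false

theorem good_P0 {s : ℕ} {Cl : Cls} : Good s Cl P0 where
  n1 _ _ := Or.inl rfl
  n2 _ _ := Or.inr ⟨fun _ _ => rfl, fun _ _ _ => rfl⟩
  n3 _ _ _ := Or.inr (Or.inr fun _ _ => rfl)

theorem good_P0' {s : ℕ} {Cl : Cls} {o : ℕ × ℕ} {l : Bool × ℕ} (ho : (o, l) ∈ occs Cl)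
    (hl : s ≤ l.2) : Good s Cl (P0' o l.1) where
  n1 _ _ := Or.inl rfl
  n2 _ _ := Or.inr ⟨fun _ _ => rfl, fun _ _ _ => rfl⟩
  n3 c cl hc := by
    by_cases h : c = o.1
    · subst h
      left
      obtain ⟨cl', h1, h2⟩ := mem_occs.1 ho
      rw [hc] at h1
      cases h1
      refine ⟨o.2, l, h2, Or.inr ⟨hl, ?_, ?_, ?_⟩⟩
      · simp [P0']
      · intro o' h3 _
        simp [P0', h3]
      · intro o' h3 _
        simp [P0', h3]
    · right; right
      intro i hi
      simp [P0', h]

theorem good_Pt {s : ℕ} {Cl : Cls} {t : ℕ} (ht : t ≤ s) : Good s Cl (Pt t) where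
  n1 i hi := by
    by_cases h : i.2 = t
    · right; intro c _; simp [Pt, h]
    · left; simp [Pt, h]
  n2 i hi := by
    by_cases h : i.2 = t
    · left; simp [Pt, h]
    · right; exact ⟨fun c _ => by simp [Pt, h], fun _ _ _ => rfl⟩
  n3 c cl hc := Or.inr (Or.inl ⟨t, ht, by simp [Pt], by simp [Pt]⟩)

theorem good_Pt' {s : ℕ} {Cl : Cls} {o : ℕ × ℕ} {l : Bool × ℕ} (ho : (o, l) ∈ occs Cl)
    (hl : l.2 < s) : Good s Cl (Pt' l.2 o) where
  n1 i hi := by
    by_cases h : i.2 = l.2
    · right; intro c _; simp [Pt', h]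
    · left; simp [Pt', h]
  n2 i hi := by
    by_cases h : i.2 = l.2
    · left; simp [Pt', h]
    · right
      refine ⟨fun c _ => by simp [Pt', h], fun o' _ ho' => ?_⟩
      simp only [Pt', decide_eq_true_eq]
      rintro rfl
      have := (litAt_eq ho).symm.trans (litAt_eq ho')
      exact h (by rw [this])
  n3 c cl hc := by
    by_cases h : c = o.1
    · subst h
      left
      obtain ⟨cl', h1, h2⟩ := mem_occs.1 ho
      rw [hc] at h1
      cases h1
      exact ⟨o.2, l, h2, Or.inl ⟨hl, by simp [Pt']⟩⟩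
    · right; left
      exact ⟨l.2, hl.le, by simp [Pt', h], by simp [Pt', h]⟩

theorem good_Pe {s : ℕ} {Cl : Cls} {e X : ℕ → Bool}
    (h : ∀ cl ∈ Cl, ∃ l ∈ cl, S2.mix s e X l.2 = l.1) : Good s Cl (Pe s Cl e X) where
  n1 i hi := by
    by_cases h : e i.2 = i.1
    · right; intro c _; simp [Pe, h]
    · left; simp [Pe, h]
  n2 i hi := by
    by_cases h : e i.2 = i.1
    · left; simp [Pe, h]
    · right
      refine ⟨fun c _ => rfl, fun o hs ho => ?_⟩
      simp only [Pe, litAt_eq ho, S2.mix, if_pos hs, decide_eq_true_eq]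
      exact h
  n3 c cl hc := by
    left
    obtain ⟨l, hl, hl'⟩ := h cl (List.mem_of_getElem? hc)
    obtain ⟨j, hj, hj'⟩ := List.getElem_of_mem hl
    have hjj : cl[j]? = some l := by rw [List.getElem?_eq_getElem hj, hj']
    have ho : ((c, j), l) ∈ occs Cl := mem_occs.2 ⟨cl, hc, hjj⟩
    refine ⟨j, l, hjj, ?_⟩
    by_cases hs : l.2 < s
    · exact Or.inl ⟨hs, by simp [Pe, litAt_eq ho, hl']⟩
    · have hX : X l.2 = l.1 := by rw [← hl', S2.mix, if_neg hs]
      refine Or.inr ⟨by omega, by simp [Pe, litAt_eq ho, hl'], fun o' h1 _ => ?_,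
        fun o' h1 h2 => ?_⟩
      · simp [Pe, litAt_eq ho, hX, h1]
      · simp only [Pe, litAt_eq h2]
        rw [hX, h1]

end Pool.Agent.NPC.MEE
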