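import Pool.Agent.H601R2.MEE.Gadget

/-!
# Minimum equivalent expression: the literals of the formula
-/

namespace Pool.Agent.NPC.MEE

open V Expr

theorem nodup_flatMap_key {ι β κ : Type} (f : ι → List β) (key : β → κ) (g : ι → κ) :
    ∀ {l : List ι}, (l.map g).Nodup → (∀ a ∈ l, (f a).Nodup) →
      (∀ a ∈ l, ∀ x ∈ f a, key x = g a) → (l.flatMap f).Nodup
  | [], _, _, _ => by simp
  | a :: l, h1, h2, h3 => by
    rw [List.map_cons, List.nodup_cons] at h1
    have ih := nodup_flatMap_key f key g (l := l) h1.2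
      (fun b hb => h2 b (List.mem_cons_of_mem _ hb)) (fun b hb => h3 b (List.mem_cons_of_mem _ hb))
    rw [List.flatMap_cons, List.nodup_append]
    refine ⟨h2 a List.mem_cons_self, ih, ?_⟩
    intro x hx y hy hxy
    subst hxy
    rw [List.mem_flatMap] at hy
    obtain ⟨b, hb, hy⟩ := hy
    apply h1.1
    rw [List.mem_map]
    refine ⟨b, hb, ?_⟩
    rw [← h3 a List.mem_cons_self x hx, ← h3 b (List.mem_cons_of_mem _ hb) x hy]

theorem nodup_zipIdx {β : Type} (l : List β) : (l.zipIdx.map Prod.snd).Nodup := by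
  rw [List.zipIdx_map_snd]
  exact List.nodup_range'

theorem nodup_occs (Cl : Cls) : ((occs Cl).map Prod.fst).Nodup := by
  rw [occs, List.map_flatMap]
  refine nodup_flatMap_key _ Prod.fst Prod.snd (nodup_zipIdx Cl) ?_ ?_
  · intro p _
    rw [List.map_map]
    have : (Prod.fst ∘ fun q : (Bool × ℕ) × ℕ => ((p.2, q.2), q.1)) =
        (fun j : ℕ => (p.2, j)) ∘ Prod.snd := rfl
    rw [this, ← List.map_map]
    exact (nodup_zipIdx p.1).map (fun a b h => by simpa using h)
  · intro p _ x hx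
    simp only [List.mem_map] at hx
    obtain ⟨q, ⟨r, _, rfl⟩, rfl⟩ := hx
    rfl

theorem nodup_filter_map {γ : Type} {Cl : Cls} (P : (ℕ × ℕ) × (Bool × ℕ) → Bool)
    {g : ℕ × ℕ → γ} (hg : Function.Injective g) :
    (((occs Cl).filter P).map (fun q => g q.1)).Nodup := by
  have h1 : ((occs Cl).filter P).map (fun q => g q.1) = (((occs Cl).filter P).map Prod.fst).map g := by
    rw [List.map_map]
    rfl
  rw [h1]
  exact (((List.filter_sublist (p := P) (l := occs Cl)).map Prod.fst).nodup (nodup_occs Cl)).map hg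

theorem flatMap_lits_map {ι : Type} (l : List ι) (f : ι → Expr V) (g : ι → Bool × V)
    (h : ∀ a, (f a).lits true = [g a]) : (l.map f).flatMap (lits true) = l.map g := by
  rw [List.flatMap_map]
  simp only [h]
  induction l with
  | nil => rfl
  | cons a l ih => simp [ih]

theorem lits_blk (s : ℕ) (Cl : Cls) (o : ℕ × ℕ) (l : Bool × ℕ) :
    (blk s Cl o l).lits true = if l.2 < s then [(false, ao o)] else if l.1 = true then
      ((occs Cl).filter (fun q => decide (q.2 = (false, l.2)))).map (fun q => (true, d o q.1)) ++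
        [(true, de o)]
      else ((occs Cl).filter (fun q => decide (q.2 = (true, l.2)))).map
        (fun q => (false, d q.1 o)) ++ [(true, de o)] := by
  unfold blk
  split_ifs
  · rfl
  · rw [lits_conj, flatMap_lits_map _ _ (fun q => (true, d o q.1)) (fun _ => rfl)]
    rfl
  · rw [lits_conj, flatMap_lits_map _ _ (fun q => (false, d q.1 o)) (fun _ => rfl)]
    rfl

theorem mem_lits_blk {s : ℕ} {Cl : Cls} {o : ℕ × ℕ} {l : Bool × ℕ} {p : Bool × V}
    (h : p ∈ (blk s Cl o l).lits true) : (l.2 < s ∧ p = (false, ao o)) ∨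
      (s ≤ l.2 ∧ (p = (true, de o) ∨
        (l.1 = true ∧ ∃ o', (o', (false, l.2)) ∈ occs Cl ∧ p = (true, d o o')) ∨
        (l.1 = false ∧ ∃ o', (o', (true, l.2)) ∈ occs Cl ∧ p = (false, d o' o)))) := by
  rw [lits_blk] at h
  split_ifs at h with h1 h2
  · left
    exact ⟨h1, by simpa using h⟩
  · right
    refine ⟨by omega, ?_⟩
    rw [List.mem_append, List.mem_map] at h
    rcases h with ⟨⟨o', l'⟩, h3, rfl⟩ | h
    · rw [List.mem_filter, decide_eq_true_eq] at h3
      obtain ⟨h3, rfl⟩ := h3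
      exact Or.inr (Or.inl ⟨h2, o', h3, rfl⟩)
    · left
      simpa using h
  · right
    refine ⟨by omega, ?_⟩
    rw [List.mem_append, List.mem_map] at h
    rcases h with ⟨⟨o', l'⟩, h3, rfl⟩ | h
    · rw [List.mem_filter, decide_eq_true_eq] at h3
      obtain ⟨h3, rfl⟩ := h3
      exact Or.inr (Or.inr ⟨by simpa using h2, o', h3, rfl⟩)
    · left
      simpa using h

theorem nodup_lits_blk (s : ℕ) (Cl : Cls) (o : ℕ × ℕ) (l : Bool × ℕ) :
    ((blk s Cl o l).lits true).Nodup := by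
  rw [lits_blk]
  split_ifs
  · simp
  · rw [List.nodup_append]
    refine ⟨nodup_filter_map (g := fun o' => (true, d o o')) _ (fun a b h => by simpa using h),
      by simp, ?_⟩
    intro a ha b hb
    rw [List.mem_map] at ha
    obtain ⟨q, _, rfl⟩ := ha
    rw [List.mem_singleton] at hb
    subst hb
    simp
  · rw [List.nodup_append]
    refine ⟨nodup_filter_map (g := fun o' => (false, d o' o)) _ (fun a b h => by simpa using h),
      by simp, ?_⟩
    intro a ha b hb
    rw [List.mem_map] at ha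
    obtain ⟨q, _, rfl⟩ := ha
    rw [List.mem_singleton] at hb
    subst hb
    simp

theorem perm_lits_fA {Cl : Cls} (hCl : Cl ≠ []) (i : Bool × ℕ) : ((fA Cl i).lits true).Perm
    ((true, x i) :: (List.range Cl.length).map (fun c => (true, be i c))) := by
  rw [fA, lits, lits, List.singleton_append]
  refine List.Perm.cons _ ?_
  refine (perm_lits_conjL true (by simpa using hCl)).trans ?_
  rw [flatMap_lits_map _ _ (fun c => (true, be i c)) (fun _ => rfl)]

theorem perm_lits_fB {s : ℕ} {Cl : Cls} (hCl : Cl ≠ []) (i : Bool × ℕ) :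
    ((fB s Cl i).lits true).Perm ((false, x i) :: ((List.range Cl.length).map
      (fun c => (true, al i c)) ++ ((occs Cl).filter
        (fun q => decide (q.2 = i ∧ i.2 < s))).map (fun q => (true, ao q.1)))) := by
  rw [fB, lits, lits, lits, List.singleton_append]
  refine List.Perm.cons _ ?_
  refine (perm_lits_conjL true (by simp [hCl])).trans ?_
  rw [List.flatMap_append, flatMap_lits_map _ _ (fun c => (true, al i c)) (fun _ => rfl),
    flatMap_lits_map _ _ (fun q => (true, ao q.1)) (fun _ => rfl)]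

theorem perm_lits_fC {s : ℕ} {Cl : Cls} (c : ℕ) (cl : List (Bool × ℕ)) :
    ((fC s Cl c cl).lits true).Perm (cl.zipIdx.flatMap (fun q => (blk s Cl (c, q.2) q.1).lits true) ++
      ((List.range (s + 1)).flatMap (fun t => [(false, al (true, t) c), (false, al (false, t) c)]) ++
        (Idx s).map (fun i => (false, be i c)))) := by
  rw [fC, lits_disj, List.flatMap_append, List.flatMap_map, List.append_assoc]
  refine List.Perm.append_left _ ?_
  rw [List.flatMap_map]
  refine List.Perm.append_left _ ?_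
  refine (perm_lits_conjL true (by simp [Idx_ne_nil])).trans ?_
  rw [flatMap_lits_map _ _ (fun i => (false, be i c)) (fun _ => rfl)]

theorem mem_lits_fA {Cl : Cls} (hCl : Cl ≠ []) {i : Bool × ℕ} {p : Bool × V}
    (h : p ∈ (fA Cl i).lits true) : p = (true, x i) ∨ ∃ c < Cl.length, p = (true, be i c) := by
  rw [(perm_lits_fA hCl i).mem_iff, List.mem_cons, List.mem_map] at h
  rcases h with h | ⟨c, hc, rfl⟩
  · exact Or.inl h
  · exact Or.inr ⟨c, List.mem_range.1 hc, rfl⟩

theorem mem_lits_fB {s : ℕ} {Cl : Cls} (hCl : Cl ≠ []) {i : Bool × ℕ} {p : Bool × V}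
    (h : p ∈ (fB s Cl i).lits true) : p = (false, x i) ∨
      (∃ c < Cl.length, p = (true, al i c)) ∨
      ∃ o, (o, i) ∈ occs Cl ∧ i.2 < s ∧ p = (true, ao o) := by
  rw [(perm_lits_fB hCl i).mem_iff, List.mem_cons, List.mem_append, List.mem_map,
    List.mem_map] at h
  rcases h with h | ⟨c, hc, rfl⟩ | ⟨⟨o, l⟩, h, rfl⟩
  · exact Or.inl h
  · exact Or.inr (Or.inl ⟨c, List.mem_range.1 hc, rfl⟩)
  · rw [List.mem_filter, decide_eq_true_eq] at h
    obtain ⟨h1, rfl, h2⟩ := h
    exact Or.inr (Or.inr ⟨o, h1, h2, rfl⟩)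

theorem mem_lits_fC {s : ℕ} {Cl : Cls} {c : ℕ} {cl : List (Bool × ℕ)} {p : Bool × V}
    (h : p ∈ (fC s Cl c cl).lits true) :
    (∃ j l, cl[j]? = some l ∧ p ∈ (blk s Cl (c, j) l).lits true) ∨
      (∃ i : Bool × ℕ, i.2 ≤ s ∧ p = (false, al i c)) ∨
      ∃ i : Bool × ℕ, i.2 ≤ s ∧ p = (false, be i c) := by
  rw [(perm_lits_fC c cl).mem_iff, List.mem_append, List.mem_append, List.mem_flatMap,
    List.mem_flatMap, List.mem_map] at h
  rcases h with ⟨⟨l, j⟩, hj, h⟩ | ⟨t, ht, h⟩ | ⟨i, hi, rfl⟩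
  · rw [List.mem_zipIdx_iff_getElem?] at hj
    exact Or.inl ⟨j, l, hj, h⟩
  · have ht := List.mem_range.1 ht
    simp only [List.mem_cons, List.not_mem_nil, or_false] at h
    rcases h with rfl | rfl
    · exact Or.inr (Or.inl ⟨(true, t), by simp only; omega, rfl⟩)
    · exact Or.inr (Or.inl ⟨(false, t), by simp only; omega, rfl⟩)
  · exact Or.inr (Or.inr ⟨i, mem_Idx.1 hi, rfl⟩)

theorem nodup_lits_fA {Cl : Cls} (hCl : Cl ≠ []) (i : Bool × ℕ) :
    ((fA Cl i).lits true).Nodup := by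
  rw [(perm_lits_fA hCl i).nodup_iff, List.nodup_cons]
  refine ⟨by simp, List.nodup_range.map fun a b h => by simpa using h⟩

theorem nodup_lits_fB {s : ℕ} {Cl : Cls} (hCl : Cl ≠ []) (i : Bool × ℕ) :
    ((fB s Cl i).lits true).Nodup := by
  rw [(perm_lits_fB hCl i).nodup_iff, List.nodup_cons, List.nodup_append]
  refine ⟨by simp, List.nodup_range.map fun a b h => by simpa using h,
    nodup_filter_map (g := fun o => (true, ao o)) _ (fun a b h => by simpa using h), ?_⟩
  intro a ha b hb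
  rw [List.mem_map] at ha hb
  obtain ⟨c, _, rfl⟩ := ha
  obtain ⟨q, _, rfl⟩ := hb
  simp

/-- The position inside a clause of a literal of a block. -/
def posKey (c : ℕ) : Bool × V → ℕ
  | (_, ao o) => o.2
  | (_, de o) => o.2
  | (true, d o _) => o.2
  | (false, d _ o) => o.2
  | _ => c

theorem nodup_lits_fC {s : ℕ} {Cl : Cls} (c : ℕ) (cl : List (Bool × ℕ)) :
    ((fC s Cl c cl).lits true).Nodup := by
  rw [(perm_lits_fC c cl).nodup_iff, List.nodup_append, List.nodup_append]
  refine ⟨?_, ⟨?_, ?_, ?_⟩, ?_⟩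
  · refine nodup_flatMap_key _ (posKey 0) Prod.snd (nodup_zipIdx cl)
      (fun q _ => nodup_lits_blk _ _ _ _) ?_
    intro q _ p hp
    rcases mem_lits_blk hp with ⟨_, rfl⟩ | ⟨_, rfl | ⟨_, o', _, rfl⟩ | ⟨_, o', _, rfl⟩⟩ <;> rfl
  · refine nodup_flatMap_key _ (fun p : Bool × V => match p with
      | (_, al i _) => i.2
      | _ => 0) id (by simpa using List.nodup_range) ?_ ?_
    · intro t _
      simp
    · intro t _ p hp
      simp only [List.mem_cons, List.not_mem_nil, or_false] at hp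
      rcases hp with rfl | rfl <;> rfl
  · exact (Idx_nodup s).map fun a b h => by simpa using h
  · intro a ha b hb
    rw [List.mem_flatMap] at ha
    rw [List.mem_map] at hb
    obtain ⟨t, _, ha⟩ := ha
    obtain ⟨i, _, rfl⟩ := hb
    simp only [List.mem_cons, List.not_mem_nil, or_false] at ha
    rcases ha with rfl | rfl <;> simp
  · intro a ha b hb
    rw [List.mem_flatMap] at ha
    obtain ⟨q, _, ha⟩ := ha
    have hb' : (∃ i, b = (false, al i c)) ∨ ∃ i, b = (false, be i c) := by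
      rw [List.mem_append, List.mem_flatMap, List.mem_map] at hb
      rcases hb with ⟨t, _, hb⟩ | ⟨i, _, rfl⟩
      · simp only [List.mem_cons, List.not_mem_nil, or_false] at hb
        rcases hb with rfl | rfl
        · exact Or.inl ⟨_, rfl⟩
        · exact Or.inl ⟨_, rfl⟩
      · exact Or.inr ⟨_, rfl⟩
    rcases mem_lits_blk ha with ⟨_, rfl⟩ | ⟨_, rfl | ⟨_, o', _, rfl⟩ | ⟨_, o', _, rfl⟩⟩ <;>
      rcases hb' with ⟨i, rfl⟩ | ⟨i, rfl⟩ <;> simp

/-- The group of a literal. -/
def grp : Bool × V → ℕ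
  | (true, x _) => 0
  | (true, be _ _) => 0
  | (false, x _) => 1
  | (true, al _ _) => 1
  | (true, ao _) => 1
  | _ => 2

/-- The index of a literal. -/
def idxKey (Cl : Cls) : Bool × V → Bool × ℕ
  | (_, x i) => i
  | (_, be i _) => i
  | (_, al i _) => i
  | (_, ao o) => litAt Cl o
  | _ => (true, 0)

/-- The clause of a literal. -/
def clKey : Bool × V → ℕ
  | (_, be _ c) => c
  | (_, al _ c) => c
  | (_, ao o) => o.1
  | (_, de o) => o.1
  | (true, d o _) => o.1
  | (false, d _ o) => o.1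
  | _ => 0

theorem nodup_lits_fN {s : ℕ} {Cl : Cls} (hCl : Cl ≠ []) : ((fN s Cl).lits true).Nodup := by
  rw [fN, (perm_lits_conjL true (fL_ne_nil s Cl)).nodup_iff, fL, List.flatMap_append,
    List.flatMap_append, List.flatMap_map, List.flatMap_map, List.flatMap_map]
  have gA : ∀ p ∈ (Idx s).flatMap (fun i => (fA Cl i).lits true), grp p = 0 := by
    intro p hp
    rw [List.mem_flatMap] at hp
    obtain ⟨i, _, hp⟩ := hp
    rcases mem_lits_fA hCl hp with rfl | ⟨c, _, rfl⟩ <;> rfl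
  have gB : ∀ p ∈ (Idx s).flatMap (fun i => (fB s Cl i).lits true), grp p = 1 := by
    intro p hp
    rw [List.mem_flatMap] at hp
    obtain ⟨i, _, hp⟩ := hp
    rcases mem_lits_fB hCl hp with rfl | ⟨c, _, rfl⟩ | ⟨o, _, _, rfl⟩ <;> rfl
  have gC : ∀ p ∈ Cl.zipIdx.flatMap (fun q => (fC s Cl q.2 q.1).lits true), grp p = 2 := by
    intro p hp
    rw [List.mem_flatMap] at hp
    obtain ⟨q, _, hp⟩ := hp
    rcases mem_lits_fC hp with ⟨j, l, _, hp⟩ | ⟨i, _, rfl⟩ | ⟨i, _, rfl⟩
    · rcases mem_lits_blk hp with ⟨_, rfl⟩ | ⟨_, rfl | ⟨_, o', _, rfl⟩ | ⟨_, o', _, rfl⟩⟩ <;> rfl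
    · rfl
    · rfl
  rw [List.nodup_append, List.nodup_append]
  refine ⟨?_, ⟨?_, ?_, ?_⟩, ?_⟩
  · refine nodup_flatMap_key _ (idxKey Cl) id (by simpa using Idx_nodup s)
      (fun i _ => nodup_lits_fA hCl i) ?_
    intro i _ p hp
    rcases mem_lits_fA hCl hp with rfl | ⟨c, _, rfl⟩ <;> rfl
  · refine nodup_flatMap_key _ (idxKey Cl) id (by simpa using Idx_nodup s)
      (fun i _ => nodup_lits_fB hCl i) ?_
    intro i _ p hp
    rcases mem_lits_fB hCl hp with rfl | ⟨c, _, rfl⟩ | ⟨o, ho, _, rfl⟩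
    · rfl
    · rfl
    · exact litAt_eq ho
  · refine nodup_flatMap_key _ clKey Prod.snd (nodup_zipIdx Cl)
      (fun q _ => nodup_lits_fC q.2 q.1) ?_
    intro q _ p hp
    rcases mem_lits_fC hp with ⟨j, l, _, hp⟩ | ⟨i, _, rfl⟩ | ⟨i, _, rfl⟩
    · rcases mem_lits_blk hp with ⟨_, rfl⟩ | ⟨_, rfl | ⟨_, o', _, rfl⟩ | ⟨_, o', _, rfl⟩⟩ <;> rfl
    · rfl
    · rfl
  · intro a ha b hb hab
    have h1 := gB a ha
    have h2 := gC b hb
    rw [hab, h2] at h1
    simp at h1
  · intro a ha b hb hab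
    have h1 := gA a ha
    rw [List.mem_append] at hb
    rcases hb with hb | hb
    · have h2 := gB b hb
      rw [hab, h2] at h1
      simp at h1
    · have h2 := gC b hb
      rw [hab, h2] at h1
      simp at h1

end Pool.Agent.NPC.MEE
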