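import Pool.Agent.H601R2.MEE.Lits

/-!
# Minimum equivalent expression: correctness of the reduction
-/

namespace Pool.Agent.NPC.MEE

open V Expr

theorem lt_of_mem_occs {Cl : Cls} {o : ℕ × ℕ} {l : Bool × ℕ} (h : (o, l) ∈ occs Cl) :
    o.1 < Cl.length := by
  obtain ⟨cl, h1, _⟩ := mem_occs.1 h
  by_contra hlt
  rw [List.getElem?_eq_none (by omega)] at h1
  simp at h1

/-- Every literal of the formula is essential. -/
theorem essential {s : ℕ} {Cl : Cls} (hCl : Cl ≠ []) {p : Bool × V}
    (hp : p ∈ (fN s Cl).lits true) :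
    ∃ q, Good s Cl q ∧ ¬ Good s Cl (Function.update q p.2 (!p.1)) := by
  have hlen : 0 < Cl.length := List.length_pos_iff.2 hCl
  rw [fN, (perm_lits_conjL true (fL_ne_nil s Cl)).mem_iff, fL, List.mem_flatMap] at hp
  obtain ⟨a, ha, hp⟩ := hp
  rw [List.mem_append, List.mem_append, List.mem_map, List.mem_map, List.mem_map] at ha
  -- clauses with no block satisfied
  rcases ha with ⟨i, hi, rfl⟩ | ⟨i, hi, rfl⟩ | ⟨⟨cl, c⟩, hc, rfl⟩
  · have hi := mem_Idx.1 hi
    rcases mem_lits_fA hCl hp with rfl | ⟨c, hc, rfl⟩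
    · -- `x i` positive
      refine ⟨P0, good_P0, fun h => ?_⟩
      rcases h.n1 i hi with h1 | h1
      · simp at h1
      · have := h1 0 hlen
        simp [Function.update, P0] at this
    · -- `be i c` positive
      refine ⟨Pt i.2, good_Pt hi, fun h => ?_⟩
      rcases h.n1 i hi with h1 | h1
      · simp [Function.update, Pt] at h1
      · have := h1 c hc
        simp at this
  · have hi := mem_Idx.1 hi
    rcases mem_lits_fB hCl hp with rfl | ⟨c, hc, rfl⟩ | ⟨o, ho, hs, rfl⟩
    · -- `x i` negative
      refine ⟨Pt i.2, good_Pt hi, fun h => ?_⟩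
      rcases h.n2 i hi with h1 | ⟨h1, _⟩
      · simp at h1
      · have := h1 0 hlen
        simp [Function.update, Pt] at this
    · -- `al i c` positive
      refine ⟨P0, good_P0, fun h => ?_⟩
      rcases h.n2 i hi with h1 | ⟨h1, _⟩
      · simp [Function.update, P0] at h1
      · have := h1 c hc
        simp at this
    · -- `ao o` positive
      refine ⟨P0, good_P0, fun h => ?_⟩
      rcases h.n2 i hi with h1 | ⟨_, h1⟩
      · simp [Function.update, P0] at h1
      · have := h1 o hs ho
        simp at this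
  · rw [List.mem_zipIdx_iff_getElem?] at hc
    simp only at hc hp
    rcases mem_lits_fC hp with ⟨j, l, hj, hp⟩ | ⟨i, hi, rfl⟩ | ⟨i, hi, rfl⟩
    · have hocc : ((c, j), l) ∈ occs Cl := mem_occs.2 ⟨cl, hc, hj⟩
      rcases mem_lits_blk hp with ⟨hs, rfl⟩ | ⟨hs, rfl | ⟨hl, o', ho', rfl⟩ | ⟨hl, o', ho', rfl⟩⟩
      · -- `ao (c, j)` negative
        refine ⟨Pt' l.2 (c, j), good_Pt' hocc hs, fun h => ?_⟩
        rcases h.n3 c cl hc with ⟨j', l', h1, h2⟩ | ⟨t, ht, h1, h2⟩ | h1
        · rcases h2 with ⟨_, h3⟩ | ⟨_, h3, _⟩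
          · by_cases hjj : j' = j
            · subst hjj
              simp at h3
            · simp [Function.update, Pt', hjj] at h3
          · simp [Function.update, Pt'] at h3
        · simp [Function.update, Pt'] at h1
        · have := h1 l (by omega)
          simp [Function.update, Pt'] at this
      · -- `de (c, j)` positive
        refine ⟨P0' (c, j) l.1, good_P0' hocc hs, fun h => ?_⟩
        rcases h.n3 c cl hc with ⟨j', l', h1, h2⟩ | ⟨t, ht, h1, h2⟩ | h1
        · rcases h2 with ⟨_, h3⟩ | ⟨_, h3, _⟩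
          · simp [Function.update, P0'] at h3
          · by_cases hjj : j' = j
            · subst hjj
              simp at h3
            · simp [Function.update, P0', hjj] at h3
        · simp [Function.update, P0'] at h1
        · have := h1 (true, 0) (Nat.zero_le _)
          simp [Function.update, P0'] at this
      · -- `d (c, j) o'` positive
        refine ⟨P0' (c, j) l.1, good_P0' hocc hs, fun h => ?_⟩
        rcases h.n3 c cl hc with ⟨j', l', h1, h2⟩ | ⟨t, ht, h1, h2⟩ | h1
        · rcases h2 with ⟨_, h3⟩ | ⟨_, h3, h4, _⟩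
          · simp [Function.update, P0'] at h3
          · by_cases hjj : j' = j
            · subst hjj
              rw [hj] at h1
              cases h1
              have := h4 o' hl ho'
              simp at this
            · simp [Function.update, P0', hjj] at h3
        · simp [Function.update, P0'] at h1
        · have := h1 (true, 0) (Nat.zero_le _)
          simp [Function.update, P0'] at this
      · -- `d o' (c, j)` negative
        refine ⟨P0' (c, j) l.1, good_P0' hocc hs, fun h => ?_⟩
        rcases h.n3 c cl hc with ⟨j', l', h1, h2⟩ | ⟨t, ht, h1, h2⟩ | h1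
        · rcases h2 with ⟨_, h3⟩ | ⟨_, h3, _, h4⟩
          · simp [Function.update, P0'] at h3
          · by_cases hjj : j' = j
            · subst hjj
              rw [hj] at h1
              cases h1
              have := h4 o' hl ho'
              simp at this
            · simp [Function.update, P0', hjj] at h3
        · simp [Function.update, P0'] at h1
        · have := h1 (true, 0) (Nat.zero_le _)
          simp [Function.update, P0'] at this
    · -- `al i c` negative
      refine ⟨Pt i.2, good_Pt hi, fun h => ?_⟩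
      rcases h.n3 c cl hc with ⟨j', l', h1, h2⟩ | ⟨t, ht, h1, h2⟩ | h1
      · rcases h2 with ⟨_, h3⟩ | ⟨_, h3, _⟩
        · simp [Function.update, Pt] at h3
        · simp [Function.update, Pt] at h3
      · by_cases hti : t = i.2
        · subst hti
          obtain ⟨b, t⟩ := i
          cases b
          · simp at h2
          · simp at h1
        · have e1 : ((true, t) : Bool × ℕ) ≠ i := fun h => hti (by rw [← h])
          simp [Function.update, Pt, hti, e1] at h1
      · have := h1 i hi
        simp [Function.update, Pt] at this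
    · -- `be i c` negative
      refine ⟨P0, good_P0, fun h => ?_⟩
      rcases h.n3 c cl hc with ⟨j', l', h1, h2⟩ | ⟨t, ht, h1, h2⟩ | h1
      · rcases h2 with ⟨_, h3⟩ | ⟨_, h3, _⟩
        · simp [Function.update, P0] at h3
        · simp [Function.update, P0] at h3
      · simp [Function.update, P0] at h1
      · have := h1 i hi
        simp at this

/-- The weights. -/
def wt (s : ℕ) : V → ℕ
  | x i => if i.2 ≤ s then 1 else s + 2
  | _ => s + 2

theorem wt_pos (s : ℕ) (v : V) : 0 < wt s v := by
  cases v <;> simp only [wt] <;> (try split_ifs) <;> omega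

/-- The list of the light variables. -/
def lX (s : ℕ) : List V := (Idx s).map x

theorem mem_lX {s : ℕ} {v : V} : v ∈ lX s ↔ ∃ i : Bool × ℕ, i.2 ≤ s ∧ v = x i := by
  simp only [lX, List.mem_map, mem_Idx]
  exact exists_congr fun i => and_congr_right fun _ => eq_comm

/-- The formula of the reduction, before the expansion. -/
def fG (s : ℕ) (Cl : Cls) : Expr V :=
  and (fN s Cl) (or (var z) (and (var w) (conjL (var z) ((Idx s).map (fun i => var (x i))))))

theorem eval_fG {s : ℕ} {Cl : Cls} {τ : V → Bool} :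
    (fG s Cl).eval τ = ((fN s Cl).eval τ && (τ z || (τ w && (lX s).all τ))) := by
  have h1 : (conjL (var z) ((Idx s).map (fun i => var (x i)))).eval τ = (lX s).all τ := by
    rw [Bool.eq_iff_iff, eval_conjL τ (by simp [Idx_ne_nil]), List.all_eq_true, lX]
    simp only [List.forall_mem_map, Expr.eval]
  simp only [fG, Expr.eval, h1]

theorem zw_notMem {s : ℕ} {Cl : Cls} (hCl : Cl ≠ []) {p : Bool × V}
    (hp : p ∈ (fN s Cl).lits true) : p.2 ≠ z ∧ p.2 ≠ w := by
  rw [fN, (perm_lits_conjL true (fL_ne_nil s Cl)).mem_iff, fL, List.mem_flatMap] at hp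
  obtain ⟨a, ha, hp⟩ := hp
  rw [List.mem_append, List.mem_append, List.mem_map, List.mem_map, List.mem_map] at ha
  rcases ha with ⟨i, hi, rfl⟩ | ⟨i, hi, rfl⟩ | ⟨⟨cl, c⟩, hc, rfl⟩
  · rcases mem_lits_fA hCl hp with rfl | ⟨c, hc, rfl⟩ <;> simp
  · rcases mem_lits_fB hCl hp with rfl | ⟨c, hc, rfl⟩ | ⟨o, ho, hs, rfl⟩ <;> simp
  · rcases mem_lits_fC hp with ⟨j, l, hj, hp⟩ | ⟨i, hi, rfl⟩ | ⟨i, hi, rfl⟩
    · rcases mem_lits_blk hp with ⟨hs, rfl⟩ | ⟨hs, rfl | ⟨hl, o', ho', rfl⟩ |
        ⟨hl, o', ho', rfl⟩⟩ <;> simp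
    · simp
    · simp

theorem fN_update {s : ℕ} {Cl : Cls} (hCl : Cl ≠ []) {v : V} (hv : v = z ∨ v = w)
    (τ : V → Bool) (b : Bool) :
    (fN s Cl).eval (Function.update τ v b) = (fN s Cl).eval τ := by
  refine Expr.eval_congr fun u hu => ?_
  rw [← lits_map_snd true, List.mem_map] at hu
  obtain ⟨p, hp, rfl⟩ := hu
  have := zw_notMem hCl hp
  rw [Function.update_of_ne]
  rcases hv with rfl | rfl
  · exact this.1
  · exact this.2

/-- The threshold. -/
def thr (s : ℕ) (Cl : Cls) : ℕ :=
  (((fN s Cl).lits true).map (fun l => wt s l.2)).sum + 2 * (s + 2) + (s + 1)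

/-- The satisfiability of the clauses. -/
def SatC (s : ℕ) (Cl : Cls) (e X : ℕ → Bool) : Prop :=
  ∀ cl ∈ Cl, ∃ l ∈ cl, S2.mix s e X l.2 = l.1

/-- The lower bound. -/
theorem lower {s : ℕ} {Cl : Cls} (hCl : Cl ≠ []) {Φ : F V} (hc : F.cost (wt s) Φ ≤ thr s Cl)
    (hΦ : ∀ τ, F.eval τ Φ = (fG s Cl).eval τ) : ∃ e, ∀ X, ¬ SatC s Cl e X := by
  classical
  obtain ⟨I, hI1, hI2, hI3⟩ := F.exists_hitting (N := fun τ => (fN s Cl).eval τ)
    (E := (fN s Cl).lits true) (X := lX s) (wt := wt s) (M := s + 2) (k := s + 1) (z := z)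
    (w := w) (P0 := P0) (Φ := Φ) (by simp) (by simp [mem_lX]) (by simp [mem_lX])
    (fun τ b => fN_update hCl (Or.inl rfl) τ b) (fun τ b => fN_update hCl (Or.inr rfl) τ b)
    (nodup_lits_fN hCl) (fun l hl => zw_notMem hCl hl)
    (fun l hl => by
      obtain ⟨q, h1, h2⟩ := essential hCl hl
      exact ⟨q, (eval_fN hCl).2 h1, by rw [← Bool.not_eq_true, eval_fN hCl]; exact h2⟩)
    (fun v hv => by
      cases v with
      | x i =>
        simp only [wt]
        rw [if_neg]
        intro h
        exact hv (mem_lX.2 ⟨i, h, rfl⟩)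
      | _ => rfl)
    (fun v hv => by
      obtain ⟨i, hi, rfl⟩ := mem_lX.1 hv
      simp only [wt]
      rw [if_pos hi]) (by omega) ((eval_fN hCl).2 good_P0)
    (fun v hv => by
      obtain ⟨i, hi, rfl⟩ := mem_lX.1 hv
      rfl) (fun τ => by rw [hΦ, eval_fG]) (by unfold thr at hc; omega)
  -- every pair is hit
  let tOf : V → ℕ := fun v => match v with
    | x i => i.2
    | _ => 0
  have hpair : ∀ t ≤ s, ∃ b, x (b, t) ∈ I := by
    intro t ht
    obtain ⟨v, hv, hv'⟩ := hI3 (Pt t) ((eval_fN hCl).2 (good_Pt ht))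
      ⟨x (true, t), mem_lX.2 ⟨_, ht, rfl⟩, by simp [Pt]⟩
    obtain ⟨i, hi, rfl⟩ := mem_lX.1 (hI2 v hv)
    simp only [Pt, ne_eq, decide_not, Bool.not_eq_eq_eq_not, Bool.not_false,
      decide_eq_true_eq] at hv'
    refine ⟨i.1, ?_⟩
    rw [← hv']
    exact hv
  have hone : ∀ t, ¬ (x (true, t) ∈ I ∧ x (false, t) ∈ I) := by
    rintro t ⟨h1, h2⟩
    have h3 : Finset.range (s + 1) ⊆ I.toFinset.image tOf := by
      intro t ht
      obtain ⟨b, hb⟩ := hpair t (by have := Finset.mem_range.1 ht; omega)
      rw [Finset.mem_image]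
      exact ⟨x (b, t), List.mem_toFinset.2 hb, rfl⟩
    have h4 := Finset.card_le_card h3
    rw [Finset.card_range] at h4
    have h5 := I.toFinset_card_le
    have h6 : (I.toFinset.image tOf).card = I.toFinset.card :=
      le_antisymm Finset.card_image_le (by omega)
    have h7 := Finset.card_image_iff.1 h6
    have h8 : x (true, t) ∈ (I.toFinset : Set V) := by simpa using h1
    have h9 : x (false, t) ∈ (I.toFinset : Set V) := by simpa using h2
    have h10 : x (true, t) = x (false, t) := h7 h8 h9 rfl
    simp at h10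
  refine ⟨fun t => if x (true, t) ∈ I then false else true, fun X hX => ?_⟩
  obtain ⟨v, hv, hv'⟩ := hI3 _ ((eval_fN hCl).2 (good_Pe hX))
    ⟨x ((if x (true, 0) ∈ I then false else true), 0), mem_lX.2 ⟨_, Nat.zero_le _, rfl⟩, by
      simp [Pe]⟩
  obtain ⟨⟨b, t⟩, hi, rfl⟩ := mem_lX.1 (hI2 v hv)
  simp only [Pe, ne_eq, decide_not, Bool.not_eq_eq_eq_not, Bool.not_false,
    decide_eq_true_eq] at hv'
  by_cases h : x (true, t) ∈ I
  · rw [if_pos h] at hv'
    subst hv'
    exact hone t ⟨h, hv⟩
  · rw [if_neg h] at hv'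
    subst hv'
    exact h hv

/-- The short expression. -/
def fS (s : ℕ) (Cl : Cls) (e : ℕ → Bool) : Expr V :=
  and (fN s Cl) (or (var z) (and (var w) (conjL (var z)
    ((List.range (s + 1)).map (fun t => var (x (!(e t), t)))))))

/-- The upper bound. -/
theorem upper {s : ℕ} {Cl : Cls} (hCl : Cl ≠ []) {e : ℕ → Bool} (he : ∀ X, ¬ SatC s Cl e X)
    (τ : V → Bool) : (fG s Cl).eval τ = (fS s Cl e).eval τ := by
  rw [eval_fG]
  have h1 : (conjL (var z) ((List.range (s + 1)).map (fun t => var (x (!(e t), t))))).eval τ =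
      (List.range (s + 1)).all (fun t => τ (x (!(e t), t))) := by
    rw [Bool.eq_iff_iff, eval_conjL τ (by simp), List.all_eq_true]
    simp [Expr.eval]
  simp only [fS, Expr.eval, h1]
  cases hN : (fN s Cl).eval τ with
  | false => simp
  | true =>
    have hg := (eval_fN hCl).1 hN
    have h2 : (lX s).all τ = (List.range (s + 1)).all (fun t => τ (x (!(e t), t))) := by
      rw [Bool.eq_iff_iff, List.all_eq_true, List.all_eq_true]
      constructor
      · intro h t ht
        have ht := List.mem_range.1 ht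
        exact h _ (mem_lX.2 ⟨_, by simp only; omega, rfl⟩)
      · intro h v hv
        obtain ⟨i0, hi0, rfl⟩ := mem_lX.1 hv
        by_contra hne
        have hx : τ (x i0) = false := by simpa using hne
        have hh : ∀ t ≤ s, τ (x (!(e t), t)) = true := fun t ht => h t (List.mem_range.2 (by omega))
        obtain ⟨X, hX⟩ := hg.sound hi0 hx (fun t ht => by
          have := hh t ht
          cases he' : e t
          · rw [he'] at this
            exact Or.inl this
          · rw [he'] at this
            exact Or.inr this)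
        refine he X fun cl hcl => ?_
        obtain ⟨l, hl, h3⟩ := hX cl hcl
        refine ⟨l, hl, ?_⟩
        rcases h3 with ⟨h4, h5⟩ | ⟨h4, h5⟩
        · rw [S2.mix, if_pos h4]
          have h6 := hh l.2 (by omega)
          obtain ⟨b, v⟩ := l
          simp only at h4 h5 h6 ⊢
          by_contra hb
          have : b = !(e v) := by
            cases b <;> cases he' : e v <;> simp_all
          rw [← this, h5] at h6
          simp at h6
        · rw [S2.mix, if_neg (by omega)]
          exact h5
    rw [h2]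

end Pool.Agent.NPC.MEE
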