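import Pool.Agent.H601R2.MEE.Red

/-!
# Minimum equivalent expression is in `Σ₂ᵖ`
-/

namespace Pool.Agent.NPC.MEE

/-- Symbols. -/
abbrev Tok : Type := ℕ ⊕ Option Bool

/-- The action of a connective on the stack of values. -/
def opStep (o : Option Bool) : List Bool → Option (List Bool)
  | [] => none
  | b :: r => match o with
    | none => some ((!b) :: r)
    | some c => match r with
      | [] => none
      | b' :: r' => some ((if c = true then b && b' else b || b') :: r')

/-- The action of a symbol on the stack of values. -/
def tokStep (τ : ℕ → Bool) (t : Tok) (st : Option (List Bool)) : Option (List Bool) :=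
  st.bind (fun r => Sum.elim (fun v => some (τ v :: r)) (fun o => opStep o r) t)

/-- Evaluation of a list of symbols. -/
def evalS (τ : ℕ → Bool) (l : List Tok) : Option (List Bool) := l.foldr (tokStep τ) (some [])

/-- The value of a list of symbols which is a well-formed expression. -/
def evalT (τ : ℕ → Bool) (l : List Tok) : Option Bool :=
  (evalS τ l).bind (fun r => if r.length = 1 then r.head? else none)

theorem foldr_toks (τ : ℕ → Bool) : ∀ (e : Expr ℕ) (r : List Bool),
    e.toks.foldr (tokStep τ) (some r) = some (e.eval τ :: r)
  | Expr.var v, r => by simp [Expr.toks, tokStep, Expr.eval]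
  | Expr.neg e, r => by
    simp only [Expr.toks, List.foldr_cons, foldr_toks τ e r]
    simp [tokStep, opStep, Expr.eval]
  | Expr.and e f, r => by
    simp only [Expr.toks, List.foldr_cons, List.foldr_append, foldr_toks τ f r,
      foldr_toks τ e (f.eval τ :: r)]
    simp [tokStep, opStep, Expr.eval]
  | Expr.or e f, r => by
    simp only [Expr.toks, List.foldr_cons, List.foldr_append, foldr_toks τ f r,
      foldr_toks τ e (f.eval τ :: r)]
    simp [tokStep, opStep, Expr.eval]

theorem evalT_toks (τ : ℕ → Bool) (e : Expr ℕ) : evalT τ e.toks = some (e.eval τ) := by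
  rw [evalT, evalS, foldr_toks]
  simp

theorem evalS_some (τ : ℕ → Bool) : ∀ (l : List Tok) (r : List Bool), evalS τ l = some r →
    ∃ es : List (Expr ℕ), l = es.flatMap Expr.toks ∧ es.map (fun e => e.eval τ) = r
  | [], r, h => by
    simp only [evalS, List.foldr_nil, Option.some.injEq] at h
    exact ⟨[], rfl, h⟩
  | t :: l, r, h => by
    simp only [evalS, List.foldr_cons, tokStep, Option.bind_eq_some_iff] at h
    obtain ⟨r', h1, h2⟩ := h
    obtain ⟨es, rfl, rfl⟩ := evalS_some τ l r' h1
    rcases t with v | o
    · simp only [Sum.elim_inl, Option.some.injEq] at h2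
      exact ⟨Expr.var v :: es, by simp [Expr.toks], by simp [Expr.eval, h2]⟩
    · simp only [Sum.elim_inr] at h2
      cases es with
      | nil => simp [opStep] at h2
      | cons e es =>
        cases o with
        | none =>
          simp only [List.map_cons, opStep, Option.some.injEq] at h2
          exact ⟨Expr.neg e :: es, by simp [Expr.toks], by simp [Expr.eval, h2]⟩
        | some c =>
          cases es with
          | nil => simp [opStep] at h2
          | cons f es =>
            simp only [List.map_cons, opStep, Option.some.injEq] at h2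
            cases c with
            | true => exact ⟨Expr.and e f :: es, by simp [Expr.toks], by
                simpa [Expr.eval] using h2⟩
            | false => exact ⟨Expr.or e f :: es, by simp [Expr.toks], by
                simpa [Expr.eval] using h2⟩

theorem evalT_some {τ : ℕ → Bool} {l : List Tok} (h : (evalT τ l).isSome = true) :
    ∃ e : Expr ℕ, e.toks = l := by
  rw [Option.isSome_iff_exists] at h
  obtain ⟨b, h⟩ := h
  simp only [evalT, Option.bind_eq_some_iff, Option.ite_none_right_eq_some] at h
  obtain ⟨r, h1, h2, _⟩ := h
  obtain ⟨es, rfl, h4⟩ := evalS_some τ l r h1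
  have h3 : es.length = 1 := by
    rw [← h2, ← h4]
    simp
  obtain ⟨e, rfl⟩ := List.length_eq_one_iff.1 h3
  exact ⟨e, by simp⟩

theorem length_opStep {o : Option Bool} {r r' : List Bool} (h : opStep o r = some r') :
    r'.length ≤ r.length := by
  cases r with
  | nil => simp [opStep] at h
  | cons b r =>
    cases o with
    | none =>
      simp only [opStep, Option.some.injEq] at h
      subst h
      simp
    | some c =>
      cases r with
      | nil => simp [opStep] at h
      | cons b' r =>
        simp only [opStep, Option.some.injEq] at h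
        subst h
        simp

theorem length_evalS (τ : ℕ → Bool) : ∀ (l : List Tok) (r : List Bool), evalS τ l = some r →
    r.length ≤ l.length
  | [], r, h => by
    simp only [evalS, List.foldr_nil, Option.some.injEq] at h
    subst h
    simp
  | t :: l, r, h => by
    simp only [evalS, List.foldr_cons, tokStep, Option.bind_eq_some_iff] at h
    obtain ⟨r', h1, h2⟩ := h
    have ih := length_evalS τ l r' h1
    rcases t with v | o
    · simp only [Sum.elim_inl, Option.some.injEq] at h2
      subst h2
      simpa using ih
    · simp only [Sum.elim_inr] at h2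
      have := length_opStep h2
      simp only [List.length_cons]
      omega

section PolyEval

variable {α : Type} [TEnc α]

theorem poly_opStep : Poly (fun p : Option Bool × List Bool => opStep p.1 p.2) := by
  refine (Poly.listCases (l := fun p : Option Bool × List Bool => p.2) (g := fun _ => none)
    (h := fun p b r => p.1.elim (some ((!b) :: r)) (fun c => match r with
      | [] => none
      | b' :: r' => some ((if c = true then b && b' else b || b') :: r'))) (Poly.snd Poly.id)
      (Poly.const _) ?_).congr fun p => ?_
  · refine Poly.optElim (o := fun q : (Option Bool × List Bool) × Bool × List Bool => q.1.1)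
      (g := fun q => some ((!q.2.1) :: q.2.2)) (h := fun q c => match q.2.2 with
      | [] => none
      | b' :: r' => some ((if c = true then q.2.1 && b' else q.2.1 || b') :: r'))
      (by fun_prop) (by fun_prop) ?_
    refine (Poly.listCases (l := fun p : ((Option Bool × List Bool) × Bool × List Bool) × Bool =>
      p.1.2.2) (g := fun _ => none) (h := fun p b' r' =>
        some ((if p.2 = true then p.1.2.1 && b' else p.1.2.1 || b') :: r'))
        (by fun_prop) (Poly.const _) (by fun_prop)).congr fun p => ?_
    cases p.1.2.2 <;> rfl
  · obtain ⟨o, r⟩ := p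
    cases r with
    | nil => rfl
    | cons b r =>
      cases o with
      | none => rfl
      | some c => cases r <;> rfl

theorem poly_evalS {l : α → List Tok} {τ : α → ℕ → Bool} (hl : Poly l)
    (hτ : Poly (fun p : α × ℕ => τ p.1 p.2)) : Poly (fun a => evalS (τ a) (l a)) := by
  obtain ⟨q, hq⟩ := hl.sz_le
  refine Poly.foldr (F := fun a t st => tokStep (τ a) t st) hl (Poly.const (some [])) ?_
    (Polynomial.C 4 * q + Polynomial.C 3) ?_
  · unfold tokStep
    refine Poly.optBind (o := fun p : α × Tok × Option (List Bool) => p.2.2)
      (f := fun p r => Sum.elim (fun v => some (τ p.1 v :: r)) (fun o => opStep o r) p.2.1)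
      (by fun_prop) ?_
    refine Poly.sumElim (o := fun p : (α × Tok × Option (List Bool)) × List Bool => p.1.2.1)
      (g := fun p v => some (τ p.1.1 v :: p.2)) (h := fun p o => opStep o p.2) (by fun_prop)
      ?_ ?_
    · refine Poly.some (Poly.cons ?_ (by fun_prop))
      exact hτ.comp (Poly.pair (by fun_prop) (by fun_prop))
    · exact poly_opStep.comp (Poly.pair (by fun_prop) (by fun_prop))
  · intro a k _
    simp only [Polynomial.eval_add, Polynomial.eval_mul, Polynomial.eval_C]
    have h0 := hq a
    have h1 := length_lt_sz (l a)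
    cases h : ((l a).drop k).foldr (fun t st => tokStep (τ a) t st) (some []) with
    | none => simp
    | some r =>
      have h2 := length_evalS (τ a) _ r h
      rw [List.length_drop] at h2
      have h3 := sz_listBool_le r
      rw [sz_some]
      omega

theorem poly_evalT {l : α → List Tok} {τ : α → ℕ → Bool} (hl : Poly l)
    (hτ : Poly (fun p : α × ℕ => τ p.1 p.2)) : Poly (fun a => evalT (τ a) (l a)) := by
  unfold evalT
  refine Poly.optBind (o := fun a => evalS (τ a) (l a))
    (f := fun _ r => if r.length = 1 then r.head? else none) (poly_evalS hl hτ) ?_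
  fun_prop

end PolyEval

/-- The variables of a list of symbols. -/
def varsT (l : List Tok) : List ℕ := l.flatMap (fun t => Sum.elim (fun v => [v]) (fun _ => []) t)

theorem varsT_toks : ∀ e : Expr ℕ, varsT e.toks = e.vars
  | Expr.var v => rfl
  | Expr.neg e => by
    have := varsT_toks e
    simp only [varsT] at this
    simp [varsT, Expr.toks, Expr.vars, this]
  | Expr.and e f => by
    have h1 := varsT_toks e
    have h2 := varsT_toks f
    simp only [varsT] at h1 h2
    simp [varsT, Expr.toks, Expr.vars, h1, h2]
  | Expr.or e f => by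
    have h1 := varsT_toks e
    have h2 := varsT_toks f
    simp only [varsT] at h1 h2
    simp [varsT, Expr.toks, Expr.vars, h1, h2]

@[fun_prop]
theorem poly_varsT {α : Type} [TEnc α] {l : α → List Tok} (hl : Poly l) :
    Poly (fun a => varsT (l a)) := by
  unfold varsT
  fun_prop

/-- The problem on lists of symbols. -/
def PT (a : List Tok × ℕ) : Prop := ∃ x : Expr ℕ, x.toks = a.1 ∧ MinEquivExpr (x, a.2)

theorem lang_PT : lang PT = lang MinEquivExpr := by
  ext z
  constructor
  · rintro ⟨⟨l, K⟩, hb, x, hx, h⟩
    simp only at hx
    subst hx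
    exact ⟨(x, K), hb, h⟩
  · rintro ⟨⟨x, K⟩, hb, h⟩
    exact ⟨(x.toks, K), hb, x, rfl, h⟩

/-- Negation normal form, as an expression. -/
def enf : Bool → Expr ℕ → Expr ℕ
  | true, Expr.var n => Expr.var n
  | false, Expr.var n => Expr.neg (Expr.var n)
  | b, Expr.neg e => enf (!b) e
  | true, Expr.and e f => Expr.and (enf true e) (enf true f)
  | false, Expr.and e f => Expr.or (enf false e) (enf false f)
  | true, Expr.or e f => Expr.or (enf true e) (enf true f)
  | false, Expr.or e f => Expr.and (enf false e) (enf false f)

theorem eval_enf (τ : ℕ → Bool) : ∀ (b : Bool) (e : Expr ℕ), (enf b e).eval τ = (e.eval τ == b)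
  | true, Expr.var n => by simp [enf]
  | false, Expr.var n => by simp [enf, Expr.eval]
  | b, Expr.neg e => by
    rw [enf, eval_enf τ (!b) e, Expr.eval]
    cases b <;> cases Expr.eval τ e <;> rfl
  | true, Expr.and e f => by
    simp only [enf, Expr.eval, eval_enf τ true e, eval_enf τ true f]
    cases Expr.eval τ e <;> cases Expr.eval τ f <;> rfl
  | false, Expr.and e f => by
    simp only [enf, Expr.eval, eval_enf τ false e, eval_enf τ false f]
    cases Expr.eval τ e <;> cases Expr.eval τ f <;> rfl
  | true, Expr.or e f => by
    simp only [enf, Expr.eval, eval_enf τ true e, eval_enf τ true f]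
    cases Expr.eval τ e <;> cases Expr.eval τ f <;> rfl
  | false, Expr.or e f => by
    simp only [enf, Expr.eval, eval_enf τ false e, eval_enf τ false f]
    cases Expr.eval τ e <;> cases Expr.eval τ f <;> rfl

theorem vars_enf : ∀ (b : Bool) (e : Expr ℕ), (enf b e).vars = e.vars
  | true, Expr.var n => rfl
  | false, Expr.var n => rfl
  | b, Expr.neg e => by rw [enf, vars_enf (!b) e, Expr.vars]
  | true, Expr.and e f => by simp [enf, Expr.vars, vars_enf true e, vars_enf true f]
  | false, Expr.and e f => by simp [enf, Expr.vars, vars_enf false e, vars_enf false f]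
  | true, Expr.or e f => by simp [enf, Expr.vars, vars_enf true e, vars_enf true f]
  | false, Expr.or e f => by simp [enf, Expr.vars, vars_enf false e, vars_enf false f]

theorem length_toks_enf : ∀ (b : Bool) (e : Expr ℕ), (enf b e).toks.length + 1 ≤ 3 * e.occ
  | true, Expr.var n => by simp [enf, Expr.toks, Expr.occ]
  | false, Expr.var n => by simp [enf, Expr.toks, Expr.occ]
  | b, Expr.neg e => by rw [enf, Expr.occ]; exact length_toks_enf (!b) e
  | true, Expr.and e f => by
    have h1 := length_toks_enf true e
    have h2 := length_toks_enf true f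
    simp [enf, Expr.toks, Expr.occ]
    omega
  | false, Expr.and e f => by
    have h1 := length_toks_enf false e
    have h2 := length_toks_enf false f
    simp [enf, Expr.toks, Expr.occ]
    omega
  | true, Expr.or e f => by
    have h1 := length_toks_enf true e
    have h2 := length_toks_enf true f
    simp [enf, Expr.toks, Expr.occ]
    omega
  | false, Expr.or e f => by
    have h1 := length_toks_enf false e
    have h2 := length_toks_enf false f
    simp [enf, Expr.toks, Expr.occ]
    omega

theorem vars_ne_nil {W : Type} : ∀ e : Expr W, e.vars ≠ []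
  | Expr.var n => by simp [Expr.vars]
  | Expr.neg e => vars_ne_nil e
  | Expr.and e f => by simp [Expr.vars, vars_ne_nil e]
  | Expr.or e f => by simp [Expr.vars, vars_ne_nil e]

theorem vars_bind {U W : Type} (f : W → Expr U) : ∀ e : Expr W,
    (e.bind f).vars = e.vars.flatMap (fun v => (f v).vars)
  | Expr.var n => by simp [Expr.vars, Expr.bind]
  | Expr.neg e => vars_bind f e
  | Expr.and e e' => by simp [Expr.vars, Expr.bind, vars_bind f e, vars_bind f e']
  | Expr.or e e' => by simp [Expr.vars, Expr.bind, vars_bind f e, vars_bind f e']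

/-- Symbols of an expression: variables of the expression and connectives. -/
theorem mem_toks_sz {e : Expr ℕ} {L : List ℕ} (hL : ∀ v ∈ e.vars, v ∈ L) :
    ∀ t ∈ e.toks, sz t ≤ sz L + 9 := by
  intro t ht
  rcases t with v | o
  · have h1 : v ∈ varsT e.toks := by
      unfold varsT
      rw [List.mem_flatMap]
      exact ⟨_, ht, by simp⟩
    rw [varsT_toks] at h1
    have h2 := sz_le_of_mem (hL v h1)
    rw [sz_inl]
    omega
  · have h1 : sz o ≤ 5 := by
      rcases o with _ | b
      · simp
      · rw [sz_some]
        have := sz_bool_le b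
        omega
    rw [sz_inr]
    have := sz_pos L
    omega

/-- A small equivalent expression. -/
theorem exists_small {x : Expr ℕ} {K : ℕ} (h : MinEquivExpr (x, K)) :
    ∃ y : Expr ℕ, y.occ ≤ K ∧ Equiv x y ∧ (∀ v ∈ y.vars, v ∈ x.vars) ∧
      sz y.toks ≤ 3 * x.occ * (sz x.vars + 10) + 1 := by
  classical
  obtain ⟨y, hy1, hy2⟩ := h
  simp only at hy1 hy2
  -- at most as many occurrences as `x`
  obtain ⟨y0, h1, h2, h3⟩ : ∃ y0 : Expr ℕ, y0.occ ≤ K ∧ y0.occ ≤ x.occ ∧ Equiv x y0 := by
    by_cases hle : y.occ ≤ x.occ
    · exact ⟨y, hy1, hle, hy2⟩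
    · exact ⟨x, by omega, le_rfl, fun _ => rfl⟩
  obtain ⟨v0, hv0⟩ := List.exists_mem_of_ne_nil _ (vars_ne_nil x)
  let ρ : ℕ → Expr ℕ := fun v => Expr.var (if v ∈ x.vars then v else v0)
  have hocc : (y0.bind ρ).occ = y0.occ := by
    rw [Expr.occ_bind, ← Expr.vars_length]
    have : y0.vars.map (fun v => (ρ v).occ) = y0.vars.map (fun _ => 1) :=
      List.map_congr_left fun _ _ => rfl
    rw [this]
    simp
  have hv : ∀ v ∈ (enf true (y0.bind ρ)).vars, v ∈ x.vars := by
    intro v hv
    rw [vars_enf, vars_bind, List.mem_flatMap] at hv
    obtain ⟨u, _, hu⟩ := hv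
    simp only [ρ, Expr.vars, List.mem_singleton] at hu
    subst hu
    split_ifs with h
    · exact h
    · exact hv0
  refine ⟨enf true (y0.bind ρ), ?_, fun τ => ?_, hv, ?_⟩
  · rw [← Expr.vars_length, vars_enf, Expr.vars_length, hocc]
    exact h1
  · rw [eval_enf, Expr.eval_bind]
    have e1 := h3 (fun v => (ρ v).eval τ)
    rw [← e1]
    have e2 : x.eval (fun v => (ρ v).eval τ) = x.eval τ := by
      refine Expr.eval_congr fun v hv => ?_
      simp only [ρ, Expr.eval, if_pos hv]
    rw [e2]
    cases x.eval τ <;> rfl
  · have e1 := sz_le_length_mul (enf true (y0.bind ρ)).toks (sz x.vars + 9) (mem_toks_sz hv)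
    have e2 := length_toks_enf true (y0.bind ρ)
    rw [hocc] at e2
    refine e1.trans (Nat.add_le_add_right (Nat.mul_le_mul_right _ ?_) 1)
    omega

theorem length_pairBits (x w : List Bool) : (pairBits x w).length = 2 * x.length + 1 + w.length := by
  unfold pairBits
  simp only [List.length_append, List.length_flatMap, List.length_cons, List.length_nil,
    List.map_const', List.sum_replicate, smul_eq_mul]
  omega

/-- The assignment coded by a string. -/
noncomputable def asgn (l : List Tok) (v : List Bool) (n : ℕ) : Bool :=
  v.getD (index (varsT l) n) false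

/-- The test. -/
noncomputable def RT (p : (List Tok × ℕ) × List Bool × List Bool) : Bool :=
  (unbits (List Tok) (unpair p.2.1).1).elim false (fun y =>
    (evalT (asgn p.1.1 p.2.2) p.1.1).isSome &&
    decide (evalT (asgn p.1.1 p.2.2) p.1.1 = evalT (asgn p.1.1 p.2.2) y) &&
    decide ((varsT y).length ≤ p.1.2) &&
    (varsT y).all (fun n => decide (n ∈ varsT p.1.1)))

theorem poly_RT : Poly RT := by
  unfold RT
  have h0 : Poly (fun p : (List Tok × ℕ) × List Bool × List Bool =>
      unbits (List Tok) (unpair p.2.1).1) :=
    poly_unbits.comp (Poly.fst (poly_unpair.comp (Poly.fst (Poly.snd Poly.id))))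
  have hτ : Poly (fun q : (((List Tok × ℕ) × List Bool × List Bool) × List Tok) × ℕ =>
      asgn q.1.1.1.1 q.1.1.2.2 q.2) := by
    unfold asgn
    exact Poly.getD (by fun_prop) (Poly.index (by fun_prop) (by fun_prop)) (Poly.const _)
  have h1 : Poly (fun p : ((List Tok × ℕ) × List Bool × List Bool) × List Tok =>
      evalT (asgn p.1.1.1 p.1.2.2) p.1.1.1) := poly_evalT (by fun_prop) hτ
  have h2 : Poly (fun p : ((List Tok × ℕ) × List Bool × List Bool) × List Tok =>
      evalT (asgn p.1.1.1 p.1.2.2) p.2) := poly_evalT (by fun_prop) hτ
  refine Poly.optElim (o := fun p : (List Tok × ℕ) × List Bool × List Bool =>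
    unbits (List Tok) (unpair p.2.1).1) (g := fun _ => false) (h := fun p y =>
    (evalT (asgn p.1.1 p.2.2) p.1.1).isSome &&
    decide (evalT (asgn p.1.1 p.2.2) p.1.1 = evalT (asgn p.1.1 p.2.2) y) &&
    decide ((varsT y).length ≤ p.1.2) &&
    (varsT y).all (fun n => decide (n ∈ varsT p.1.1))) h0 (Poly.const _) ?_
  refine Poly.and (Poly.and (Poly.and (Poly.isSome h1) (Poly.decide_eq h1 h2)) (by fun_prop))
    ?_
  exact Poly.all (p := fun (p : ((List Tok × ℕ) × List Bool × List Bool) × List Tok) n =>
    decide (n ∈ varsT p.1.1.1)) (by fun_prop) (by fun_prop)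

theorem sz_varsT_le (l : List Tok) : sz (varsT l) ≤ sz l := by
  induction l with
  | nil => simp [varsT]
  | cons t l ih =>
    rcases t with v | o
    · simp only [varsT, List.flatMap_cons, Sum.elim_inl, List.singleton_append] at ih ⊢
      rw [sz_list_cons, sz_list_cons, sz_inl]
      omega
    · simp only [varsT, List.flatMap_cons, Sum.elim_inr, List.nil_append] at ih ⊢
      rw [sz_list_cons]
      omega

/-- The polynomial bounding the certificates. -/
noncomputable def pM : Polynomial ℕ :=
  Polynomial.C 6 * Polynomial.X * (Polynomial.X + Polynomial.C 10) + Polynomial.C 3 +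
    Polynomial.X

theorem pM_eval (n : ℕ) : pM.eval n = 6 * n * (n + 10) + 3 + n := by
  simp [pM]

/-- Minimum equivalent expression is in `Σ₂ᵖ` (with certificates of fixed length). -/
theorem inSigma2_MEE : S2.InSigma2 (lang MinEquivExpr) := by
  rw [← lang_PT]
  refine S2.inSigma2P_of poly_RT pM ?_
  rintro ⟨l, K⟩
  have hszl : sz l ≤ sz ((l, K) : List Tok × ℕ) := by
    rw [sz_pair]
    omega
  constructor
  · rintro ⟨x, hx, h⟩
    simp only at hx h
    subst hx
    obtain ⟨y, h1, h2, h3, h4⟩ := exists_small h
    have h5 : sz x.vars ≤ sz x.toks := by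
      have := sz_varsT_le x.toks
      rwa [varsT_toks] at this
    have h6 : x.occ ≤ sz x.toks := by
      rw [← Expr.vars_length]
      have := length_lt_sz x.vars
      omega
    have h7 : 2 * sz y.toks + 1 ≤ pM.eval (sz ((x.toks, K) : List Tok × ℕ)) := by
      rw [pM_eval]
      have e1 : 3 * x.occ * (sz x.vars + 10) ≤
          3 * sz ((x.toks, K) : List Tok × ℕ) * (sz ((x.toks, K) : List Tok × ℕ) + 10) :=
        Nat.mul_le_mul (Nat.mul_le_mul_left _ (by omega)) (by omega)
      have e2 : 6 * sz ((x.toks, K) : List Tok × ℕ) * (sz ((x.toks, K) : List Tok × ℕ) + 10) =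
          2 * (3 * sz ((x.toks, K) : List Tok × ℕ) * (sz ((x.toks, K) : List Tok × ℕ) + 10)) := by
        ring
      omega
    refine ⟨pairBits (bits y.toks) (List.replicate
      (pM.eval (sz ((x.toks, K) : List Tok × ℕ)) - (2 * sz y.toks + 1)) false), ?_, ?_⟩
    · rw [length_pairBits, List.length_replicate, bits_length]
      omega
    · intro v hv
      simp only [RT, unpair_pairBits, unbits_bits, Option.elim_some, evalT_toks,
        Option.isSome_some, Bool.true_and, Bool.and_eq_true, decide_eq_true_eq, varsT_toks,
        List.all_eq_true, Option.some.injEq]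
      exact ⟨⟨h2 _, by rw [Expr.vars_length]; exact h1⟩, h3⟩
  · rintro ⟨u, hu, hall⟩
    cases hy : unbits (List Tok) (unpair u).1 with
    | none =>
      exfalso
      have := hall (List.replicate (pM.eval (sz ((l, K) : List Tok × ℕ))) false) (by simp)
      simp [RT, hy] at this
    | some ly =>
      have hall' : ∀ v : List Bool, v.length = pM.eval (sz ((l, K) : List Tok × ℕ)) →
          (((evalT (asgn l v) l).isSome = true ∧ evalT (asgn l v) l = evalT (asgn l v) ly) ∧
            (varsT ly).length ≤ K) ∧ ∀ n ∈ varsT ly, n ∈ varsT l := by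
        intro v hv
        have := hall v hv
        simpa only [RT, hy, Option.elim_some, Bool.and_eq_true, decide_eq_true_eq,
          List.all_eq_true] using this
      obtain ⟨⟨⟨g1, g2⟩, g3⟩, g4⟩ := hall' (List.replicate
        (pM.eval (sz ((l, K) : List Tok × ℕ))) false) (by simp)
      obtain ⟨x, hx⟩ := evalT_some g1
      obtain ⟨y, hy'⟩ := evalT_some (by rw [← g2]; exact g1)
      refine ⟨x, hx, y, ?_, fun τ => ?_⟩
      · rw [← Expr.vars_length, ← varsT_toks, hy']
        exact g3
      · have hlen : (varsT l).length ≤ pM.eval (sz ((l, K) : List Tok × ℕ)) := by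
          have e1 := length_lt_sz (varsT l)
          have e2 := sz_varsT_le l
          rw [pM_eval]
          omega
        have hv : ((varsT l).map τ ++ List.replicate (pM.eval (sz ((l, K) : List Tok × ℕ)) -
            (varsT l).length) false).length = pM.eval (sz ((l, K) : List Tok × ℕ)) := by
          rw [List.length_append, List.length_map, List.length_replicate]
          omega
        have h1 := (hall' _ hv).1.1.2
        have h2 : ∀ n ∈ varsT l, asgn l ((varsT l).map τ ++ List.replicate
            (pM.eval (sz ((l, K) : List Tok × ℕ)) - (varsT l).length) false) n = τ n := by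
          intro n hn
          have e1 := S2.index_lt hn
          rw [asgn, List.getD_eq_getElem?_getD, List.getElem?_append_left (by simpa using e1),
            List.getElem?_map, getElem?_index hn]
          rfl
        rw [← hx, ← hy'] at h1
        rw [evalT_toks, evalT_toks, Option.some.injEq] at h1
        have e1 : ∀ v, x.eval (asgn x.toks v) = x.eval (asgn l v) := fun v => by rw [hx]
        rw [hx] at h1
        rw [← Expr.eval_congr (e := x) (fun n hn => h2 n (by rw [← hx, varsT_toks]; exact hn)),
          ← Expr.eval_congr (e := y) (fun n hn => h2 n (g4 n (by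
            rw [← hy', varsT_toks]; exact hn)))]
        exact h1

end Pool.Agent.NPC.MEE
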