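import Pool.Agent.H601R2.MEE.Main
import Pool.Agent.H601R2.Pi2
import Mathlib.Logic.Equiv.List

/-!
# Minimum equivalent expression: the reduction is computable in polynomial time
-/

namespace Pool.Agent.NPC.MEE

open V

/-! ### Expressions -/

section PolyExpr

variable {α β W : Type} [TEnc α] [TEnc β] [TEnc W]

theorem poly_toks {e : α → Expr W} (he : Poly e) : Poly (fun a => (e a).toks) := he

theorem poly_of_toks {e : α → Expr W} (he : Poly (fun a => (e a).toks)) : Poly e := he

theorem poly_var {v : α → W} (hv : Poly v) : Poly (fun a => Expr.var (v a)) :=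
  poly_of_toks (Poly.cons (Poly.inl hv) (Poly.const []))

theorem poly_neg {e : α → Expr W} (he : Poly e) : Poly (fun a => Expr.neg (e a)) :=
  poly_of_toks (Poly.cons (Poly.const (Sum.inr none)) (poly_toks he))

theorem poly_and {e f : α → Expr W} (he : Poly e) (hf : Poly f) :
    Poly (fun a => Expr.and (e a) (f a)) :=
  poly_of_toks (Poly.cons (Poly.const (Sum.inr (some true)))
    (Poly.append (poly_toks he) (poly_toks hf)))

theorem poly_or {e f : α → Expr W} (he : Poly e) (hf : Poly f) :
    Poly (fun a => Expr.or (e a) (f a)) :=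
  poly_of_toks (Poly.cons (Poly.const (Sum.inr (some false)))
    (Poly.append (poly_toks he) (poly_toks hf)))

theorem poly_conj {l : α → List (Expr W)} {e : α → Expr W} (hl : Poly l) (he : Poly e) :
    Poly (fun a => Expr.conj (l a) (e a)) := by
  refine poly_of_toks ((Poly.append (Poly.flatMap (F := fun _ (e : Expr W) =>
    Sum.inr (some true) :: e.toks) hl ?_) (poly_toks he)).congr fun a => (Expr.toks_conj _ _).symm)
  exact Poly.cons (Poly.const (Sum.inr (some true))) (poly_toks (Poly.snd Poly.id))

theorem poly_disj {l : α → List (Expr W)} {e : α → Expr W} (hl : Poly l) (he : Poly e) :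
    Poly (fun a => Expr.disj (l a) (e a)) := by
  refine poly_of_toks ((Poly.append (Poly.flatMap (F := fun _ (e : Expr W) =>
    Sum.inr (some false) :: e.toks) hl ?_) (poly_toks he)).congr fun a =>
      (Expr.toks_disj _ _).symm)
  exact Poly.cons (Poly.const (Sum.inr (some false))) (poly_toks (Poly.snd Poly.id))

theorem poly_conjL {l : α → List (Expr W)} {e : α → Expr W} (hl : Poly l) (he : Poly e) :
    Poly (fun a => Expr.conjL (e a) (l a)) := by
  refine (Poly.listCases (g := e) (h := fun _ b t => Expr.conj t b) hl he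
    (poly_conj (Poly.snd (Poly.snd Poly.id)) (Poly.fst (Poly.snd Poly.id)))).congr fun a => ?_
  cases l a <;> rfl

theorem toks_bind {U : Type} (f : W → Expr U) : ∀ e : Expr W, (e.bind f).toks =
    e.toks.flatMap (fun t => Sum.elim (fun v => (f v).toks) (fun o => [Sum.inr o]) t)
  | Expr.var v => by simp [Expr.bind, Expr.toks]
  | Expr.neg e => by simp [Expr.bind, Expr.toks, toks_bind f e]
  | Expr.and e e' => by simp [Expr.bind, Expr.toks, toks_bind f e, toks_bind f e']
  | Expr.or e e' => by simp [Expr.bind, Expr.toks, toks_bind f e, toks_bind f e']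

theorem poly_bind {U : Type} [TEnc U] {e : α → Expr W} {f : α → W → Expr U} (he : Poly e)
    (hf : Poly (fun p : α × W => f p.1 p.2)) : Poly (fun a => (e a).bind (f a)) := by
  refine poly_of_toks ((Poly.flatMap (F := fun a (t : W ⊕ Option Bool) =>
    Sum.elim (fun v => (f a v).toks) (fun o => [Sum.inr o]) t) (poly_toks he) ?_).congr fun a =>
      (toks_bind _ _).symm)
  refine Poly.sumElim (o := fun p : α × (W ⊕ Option Bool) => p.2)
    (g := fun p v => (f p.1 v).toks) (h := fun _ o => [Sum.inr o]) (Poly.snd Poly.id) ?_ ?_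
  · exact poly_toks (hf.comp (Poly.pair (Poly.fst (Poly.fst Poly.id)) (Poly.snd Poly.id)))
  · exact Poly.cons (Poly.inr (Poly.snd Poly.id)) (Poly.const [])

theorem toks_occ : ∀ e : Expr W, (e.toks.filter (fun t =>
    Sum.elim (fun _ => true) (fun _ => false) t)).length = e.occ
  | Expr.var v => by simp [Expr.toks, Expr.occ]
  | Expr.neg e => by simp [Expr.toks, Expr.occ, toks_occ e]
  | Expr.and e e' => by simp [Expr.toks, Expr.occ, toks_occ e, toks_occ e']
  | Expr.or e e' => by simp [Expr.toks, Expr.occ, toks_occ e, toks_occ e']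

theorem poly_occ {e : α → Expr W} (he : Poly e) : Poly (fun a => (e a).occ) := by
  refine (Poly.length (Poly.filter (p := fun _ (t : W ⊕ Option Bool) =>
    Sum.elim (fun _ => true) (fun _ => false) t) (poly_toks he) ?_)).congr fun a => toks_occ _
  exact Poly.sumElim (o := fun p : α × (W ⊕ Option Bool) => p.2)
    (g := fun _ _ => true) (h := fun _ _ => false) (Poly.snd Poly.id) (Poly.const _)
    (Poly.const _)

attribute [fun_prop] poly_var poly_neg poly_and poly_or poly_conj poly_disj poly_conjL poly_bind
  poly_occ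

end PolyExpr

/-! ### Variables -/

/-- The code of a variable. -/
def code : V → ℕ × (Bool × ℕ) × (ℕ × ℕ) × (ℕ × ℕ)
  | x i => (0, i, (0, 0), (0, 0))
  | al i c => (1, i, (c, 0), (0, 0))
  | be i c => (2, i, (c, 0), (0, 0))
  | ao o => (3, (false, 0), o, (0, 0))
  | de o => (4, (false, 0), o, (0, 0))
  | d o o' => (5, (false, 0), o, o')
  | z => (6, (false, 0), (0, 0), (0, 0))
  | w => (7, (false, 0), (0, 0), (0, 0))

theorem code_injective : Function.Injective code := by
  intro a b h
  cases a <;> cases b <;> simp_all [code]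

instance : TEnc V := ⟨fun v => toT (code v), fun _ _ h => code_injective (TEnc.inj h)⟩

section PolyV

variable {α : Type} [TEnc α]

theorem poly_code {v : α → V} (hv : Poly v) : Poly (fun a => code (v a)) := hv

theorem poly_of_code {v : α → V} (hv : Poly (fun a => code (v a))) : Poly v := hv

theorem poly_x {i : α → Bool × ℕ} (hi : Poly i) : Poly (fun a => V.x (i a)) :=
  poly_of_code (Poly.pair (Poly.const _) (Poly.pair hi (Poly.const _)))

theorem poly_al {i : α → Bool × ℕ} {c : α → ℕ} (hi : Poly i) (hc : Poly c) :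
    Poly (fun a => V.al (i a) (c a)) :=
  poly_of_code (Poly.pair (Poly.const _) (Poly.pair hi (Poly.pair (Poly.pair hc (Poly.const _))
    (Poly.const _))))

theorem poly_be {i : α → Bool × ℕ} {c : α → ℕ} (hi : Poly i) (hc : Poly c) :
    Poly (fun a => V.be (i a) (c a)) :=
  poly_of_code (Poly.pair (Poly.const _) (Poly.pair hi (Poly.pair (Poly.pair hc (Poly.const _))
    (Poly.const _))))

theorem poly_ao {o : α → ℕ × ℕ} (ho : Poly o) : Poly (fun a => V.ao (o a)) :=
  poly_of_code (Poly.pair (Poly.const _) (Poly.pair (Poly.const _) (Poly.pair ho (Poly.const _))))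

theorem poly_de {o : α → ℕ × ℕ} (ho : Poly o) : Poly (fun a => V.de (o a)) :=
  poly_of_code (Poly.pair (Poly.const _) (Poly.pair (Poly.const _) (Poly.pair ho (Poly.const _))))

theorem poly_d {o o' : α → ℕ × ℕ} (ho : Poly o) (ho' : Poly o') :
    Poly (fun a => V.d (o a) (o' a)) :=
  poly_of_code (Poly.pair (Poly.const _) (Poly.pair (Poly.const _) (Poly.pair ho ho')))

attribute [fun_prop] poly_x poly_al poly_be poly_ao poly_de poly_d

/-- The names of the copies. -/
def nm (v : V) (j : ℕ) : ℕ := Encodable.encode (j, code v)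

theorem nm_inj (v : V) (j : ℕ) (v' : V) (j' : ℕ) (h : nm v j = nm v' j') : v = v' ∧ j = j' := by
  have := Encodable.encode_injective h
  simp only [Prod.mk.injEq] at this
  exact ⟨code_injective this.2, this.1⟩

theorem poly_natPair {m n : α → ℕ} (hm : Poly m) (hn : Poly n) :
    Poly (fun a => Nat.pair (m a) (n a)) := by
  unfold Nat.pair
  fun_prop

theorem poly_encode_prod {β γ : Type} [TEnc β] [TEnc γ] [Encodable β] [Encodable γ]
    (hβ : Poly (Encodable.encode : β → ℕ)) (hγ : Poly (Encodable.encode : γ → ℕ)) :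
    Poly (Encodable.encode : β × γ → ℕ) :=
  (poly_natPair (hβ.comp (Poly.fst Poly.id)) (hγ.comp (Poly.snd Poly.id))).congr fun a => by
    rw [Encodable.encode_prod_val]

theorem poly_encode_nat : Poly (Encodable.encode : ℕ → ℕ) :=
  Poly.id.congr fun a => (Encodable.encode_nat a).symm

theorem poly_encode_bool : Poly (Encodable.encode : Bool → ℕ) :=
  (Poly.cond (b := fun a : Bool => a) Poly.id (Poly.const 1) (Poly.const 0)).congr fun a => by
    cases a
    · exact Encodable.encode_false.symm
    · exact Encodable.encode_true.symm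

theorem poly_nm {v : α → V} {j : α → ℕ} (hv : Poly v) (hj : Poly j) :
    Poly (fun a => nm (v a) (j a)) :=
  (poly_encode_prod poly_encode_nat (poly_encode_prod poly_encode_nat
    (poly_encode_prod (poly_encode_prod poly_encode_bool poly_encode_nat)
      (poly_encode_prod (poly_encode_prod poly_encode_nat poly_encode_nat)
        (poly_encode_prod poly_encode_nat poly_encode_nat))))).comp
    (Poly.pair hj (poly_code hv))

attribute [fun_prop] poly_nm

end PolyV

/-! ### The formula -/

section PolyF

variable {α : Type} [TEnc α] {s : α → ℕ} {Cl : α → Cls}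

theorem poly_Idx (hs : UPoly s) : Poly (fun a => Idx (s a)) :=
  Poly.flatMap (F := fun _ t => [(true, t), (false, t)])
    (UPoly.range (hs.add (UPoly.const 1))) (by fun_prop)

theorem poly_occs (hCl : Poly Cl) : Poly (fun a => occs (Cl a)) := by
  unfold occs
  fun_prop

theorem poly_blk (hs : UPoly s) (hCl : Poly Cl) {o : α → ℕ × ℕ} {l : α → Bool × ℕ}
    (ho : Poly o) (hl : Poly l) : Poly (fun a => blk (s a) (Cl a) (o a) (l a)) := by
  have hs' := hs.toPoly
  have ho' := poly_occs hCl
  unfold blk
  refine Poly.ite (by fun_prop) (by fun_prop) (Poly.ite (by fun_prop) ?_ ?_)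
  · refine poly_conj ?_ (by fun_prop)
    refine Poly.map (F := fun a (q : (ℕ × ℕ) × (Bool × ℕ)) => Expr.var (V.d (o a) q.1))
      (Poly.filter (p := fun a (q : (ℕ × ℕ) × (Bool × ℕ)) => decide (q.2 = (false, (l a).2)))
        ho' (by fun_prop)) (by fun_prop)
  · refine poly_conj ?_ (by fun_prop)
    refine Poly.map (F := fun a (q : (ℕ × ℕ) × (Bool × ℕ)) => Expr.neg (Expr.var (V.d q.1 (o a))))
      (Poly.filter (p := fun a (q : (ℕ × ℕ) × (Bool × ℕ)) => decide (q.2 = (true, (l a).2)))
        ho' (by fun_prop)) (by fun_prop)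

theorem poly_fA (hCl : Poly Cl) {i : α → Bool × ℕ} (hi : Poly i) :
    Poly (fun a => fA (Cl a) (i a)) := by
  have hr : Poly (fun a => List.range (Cl a).length) := Poly.range_length hCl
  unfold fA
  refine poly_or (by fun_prop) (poly_conjL ?_ (Poly.const _))
  exact Poly.map (F := fun a c => Expr.var (V.be (i a) c)) hr (by fun_prop)

theorem poly_fB (hs : UPoly s) (hCl : Poly Cl) {i : α → Bool × ℕ} (hi : Poly i) :
    Poly (fun a => fB (s a) (Cl a) (i a)) := by
  have hs' := hs.toPoly
  have ho' := poly_occs hCl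
  have hr : Poly (fun a => List.range (Cl a).length) := Poly.range_length hCl
  unfold fB
  refine poly_or (by fun_prop) (poly_conjL (Poly.append ?_ ?_) (Poly.const _))
  · exact Poly.map (F := fun a c => Expr.var (V.al (i a) c)) hr (by fun_prop)
  · exact Poly.map (F := fun a (q : (ℕ × ℕ) × (Bool × ℕ)) => Expr.var (V.ao q.1))
      (Poly.filter (p := fun a (q : (ℕ × ℕ) × (Bool × ℕ)) => decide (q.2 = i a ∧ (i a).2 < s a))
        ho' (by fun_prop)) (by fun_prop)

theorem poly_fC (hs : UPoly s) (hCl : Poly Cl) {c : α → ℕ} {cl : α → List (Bool × ℕ)}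
    (hc : Poly c) (hcl : Poly cl) : Poly (fun a => fC (s a) (Cl a) (c a) (cl a)) := by
  unfold fC
  refine poly_disj (Poly.append ?_ ?_) (poly_conjL ?_ (Poly.const _))
  · refine Poly.map (F := fun a (q : (Bool × ℕ) × ℕ) => blk (s a) (Cl a) (c a, q.2) q.1)
      (Poly.zipIdx hcl) ?_
    exact poly_blk (UPoly.comp hs (Poly.fst Poly.id)) (hCl.comp (Poly.fst Poly.id))
      (by fun_prop) (by fun_prop)
  · exact Poly.map (F := fun a t => Expr.and (Expr.neg (Expr.var (V.al (true, t) (c a))))
      (Expr.neg (Expr.var (V.al (false, t) (c a))))) (UPoly.range (hs.add (UPoly.const 1)))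
      (by fun_prop)
  · exact Poly.map (F := fun a i => Expr.neg (Expr.var (V.be i (c a)))) (poly_Idx hs)
      (by fun_prop)

theorem poly_fN (hs : UPoly s) (hCl : Poly Cl) : Poly (fun a => fN (s a) (Cl a)) := by
  unfold fN fL
  refine poly_conjL (Poly.append ?_ (Poly.append ?_ ?_)) (Poly.const _)
  · exact Poly.map (F := fun a i => fA (Cl a) i) (poly_Idx hs)
      (poly_fA (hCl.comp (Poly.fst Poly.id)) (Poly.snd Poly.id))
  · exact Poly.map (F := fun a i => fB (s a) (Cl a) i) (poly_Idx hs)
      (poly_fB (UPoly.comp hs (Poly.fst Poly.id)) (hCl.comp (Poly.fst Poly.id))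
        (Poly.snd Poly.id))
  · exact Poly.map (F := fun a (p : List (Bool × ℕ) × ℕ) => fC (s a) (Cl a) p.2 p.1)
      (Poly.zipIdx hCl) (poly_fC (UPoly.comp hs (Poly.fst Poly.id)) (hCl.comp (Poly.fst Poly.id))
        (Poly.snd (Poly.snd Poly.id)) (Poly.fst (Poly.snd Poly.id)))

theorem poly_fG (hs : UPoly s) (hCl : Poly Cl) : Poly (fun a => fG (s a) (Cl a)) := by
  unfold fG
  refine poly_and (poly_fN hs hCl) (poly_or (Poly.const _) (poly_and (Poly.const _)
    (poly_conjL ?_ (Poly.const _))))
  exact Poly.map (F := fun _ i => Expr.var (V.x i)) (poly_Idx hs) (by fun_prop)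

/-- Whether a code belongs to a light variable. -/
theorem wt_eq (s : ℕ) (v : V) : wt s v =
    if (code v).1 = 0 ∧ (code v).2.1.2 ≤ s then 1 else s + 2 := by
  cases v <;> simp [wt, code]

theorem upoly_wt (hs : UPoly s) {v : α → V} (hv : Poly v) : UPoly (fun a => wt (s a) (v a)) := by
  have hs' := hs.toPoly
  have hv' := poly_code hv
  refine UPoly.of_le ?_ (hs.add (UPoly.const 2)) (fun a => ?_)
  · refine Poly.congr ?_ fun a => (wt_eq _ _).symm
    fun_prop
  · rw [wt_eq]
    split_ifs <;> omega

theorem poly_copies (hs : UPoly s) {v : α → V} (hv : Poly v) :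
    Poly (fun a => copies nm (wt (s a)) (v a)) := by
  unfold copies
  refine poly_conj ?_ (by fun_prop)
  refine Poly.map (F := fun a j => Expr.var (nm (v a) (j + 1))) ?_ (by fun_prop)
  have h1 := upoly_wt hs hv
  exact UPoly.range (UPoly.of_le (Poly.sub h1.toPoly (Poly.const 1)) h1 (fun a => Nat.sub_le _ _))

end PolyF

/-! ### The reduction -/

/-- The clauses of an instance. -/
def cls (I : List Unit × List Unit × List (List (Bool × ℕ))) : Cls :=
  [(true, 0), (false, 0)] :: I.2.2.map (fun t => t.map (fun l => (!l.1, l.2)))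

/-- The reduction. -/
def red (I : List Unit × List Unit × List (List (Bool × ℕ))) : Expr ℕ × ℕ :=
  ((fG I.1.length (cls I)).bind (copies nm (wt I.1.length)),
    ((fN I.1.length (cls I)).bind (copies nm (wt I.1.length))).occ + 2 * (I.1.length + 2) +
      (I.1.length + 1))

theorem poly_red : Poly red := by
  have hs : UPoly (fun I : List Unit × List Unit × List (List (Bool × ℕ)) => I.1.length) :=
    UPoly.length (Poly.fst Poly.id)
  have hs' := hs.toPoly
  have hCl : Poly cls := by
    unfold cls
    fun_prop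
  have hb : Poly (fun p : (List Unit × List Unit × List (List (Bool × ℕ))) × V =>
      copies nm (wt p.1.1.length) p.2) :=
    poly_copies (UPoly.comp hs (Poly.fst Poly.id)) (Poly.snd Poly.id)
  refine Poly.pair (poly_bind (poly_fG hs hCl) hb) ?_
  have h1 : Poly (fun I : List Unit × List Unit × List (List (Bool × ℕ)) =>
      ((fN I.1.length (cls I)).bind (copies nm (wt I.1.length))).occ) :=
    poly_occ (poly_bind (poly_fN hs hCl) hb)
  fun_prop

theorem occ_fN_bind (s : ℕ) (Cl : Cls) : ((fN s Cl).bind (copies nm (wt s))).occ =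
    (((fN s Cl).lits true).map (fun l => wt s l.2)).sum := by
  rw [Expr.occ_bind, ← Expr.lits_map_snd true, List.map_map]
  congr 1
  refine List.map_congr_left fun l _ => ?_
  exact occ_copies (wt_pos s) _

theorem thr_eq (s : ℕ) (Cl : Cls) : ((fN s Cl).bind (copies nm (wt s))).occ + 2 * (s + 2) +
    (s + 1) = thr s Cl := by
  rw [occ_fN_bind, thr]

theorem cls_iff (I : List Unit × List Unit × List (List (Bool × ℕ))) :
    S2.EA I ↔ ∃ e, ∀ X, ¬ SatC I.1.length (cls I) e X := by
  unfold S2.EA SatC cls
  refine exists_congr fun e => forall_congr' fun X => ?_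
  rw [List.forall_mem_cons, not_and_or]
  constructor
  · rintro ⟨t, ht, h⟩
    right
    intro h2
    obtain ⟨l, hl, hl'⟩ := h2 _ (List.mem_map.2 ⟨t, ht, rfl⟩)
    obtain ⟨l', hl1, rfl⟩ := List.mem_map.1 hl
    simp only at hl'
    rw [h l' hl1] at hl'
    simp at hl'
  · rintro (h | h)
    · exfalso
      apply h
      cases hm : S2.mix I.1.length e X 0
      · exact ⟨(false, 0), by simp, hm⟩
      · exact ⟨(true, 0), by simp, hm⟩
    · push Not at h
      obtain ⟨c, hc, h⟩ := h
      obtain ⟨t, ht, rfl⟩ := List.mem_map.1 hc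
      refine ⟨t, ht, fun l hl => ?_⟩
      have := h _ (List.mem_map.2 ⟨l, hl, rfl⟩)
      simp only at this
      cases h1 : S2.mix I.1.length e X l.2 <;> cases h2 : l.1 <;> simp_all

theorem cls_ne_nil (I : List Unit × List Unit × List (List (Bool × ℕ))) : cls I ≠ [] := by
  simp [cls]

theorem red_correct (I : List Unit × List Unit × List (List (Bool × ℕ))) :
    S2.EA I ↔ MinEquivExpr (red I) := by
  rw [cls_iff]
  generalize hs : I.1.length = s
  generalize hCl : cls I = Cl
  have hne : Cl ≠ [] := by rw [← hCl]; exact cls_ne_nil I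
  have hred : red I = ((fG s Cl).bind (copies nm (wt s)), thr s Cl) := by
    rw [red, hs, hCl, thr_eq]
  rw [hred]
  constructor
  · rintro ⟨e, he⟩
    refine ⟨(fS s Cl e).bind (copies nm (wt s)), ?_, fun τ => ?_⟩
    · have h1 := occ_fN_bind s Cl
      have hx : ((Expr.conjL (Expr.var z) ((List.range (s + 1)).map
          (fun t => Expr.var (x (!(e t), t))))).bind (copies nm (wt s))).occ = s + 1 := by
        rw [Expr.occ_bind, ← Expr.lits_map_snd true, List.map_map]
        rw [((Expr.perm_lits_conjL true (by simp)).map _).sum_eq]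
        rw [flatMap_lits_map _ _ (fun t => (true, x (!(e t), t))) (fun _ => rfl), List.map_map]
        have : ∀ t ∈ List.range (s + 1), (((fun v => (copies nm (wt s) v).occ) ∘ Prod.snd) ∘
            fun t => (true, x (!(e t), t))) t = 1 := by
          intro t ht
          have ht := List.mem_range.1 ht
          simp only [Function.comp]
          rw [occ_copies (wt_pos s)]
          simp only [wt]
          rw [if_pos (by omega)]
        rw [List.map_congr_left this]
        simp
      have hz : ((Expr.var z : Expr V).bind (copies nm (wt s))).occ = s + 2 :=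
        occ_copies (wt_pos s) z
      have hw : ((Expr.var w : Expr V).bind (copies nm (wt s))).occ = s + 2 :=
        occ_copies (wt_pos s) w
      simp only [fS, Expr.bind, Expr.occ] at hx hz hw ⊢
      rw [hx, hz, hw, h1, thr]
      omega
    · rw [Expr.eval_bind, Expr.eval_bind]
      exact upper hne he _
  · rintro ⟨y, hy1, hy2⟩
    obtain ⟨Φ, h1, h2⟩ := exists_formula (wt_pos s) nm_inj (fG s Cl) y hy2
    exact lower hne (h1.trans hy1) h2

/-- Minimum equivalent expression is `Σ₂ᵖ`-hard. -/
theorem hardS2_MEE : S2.HardS2 (fun _ => True) MinEquivExpr :=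
  S2.HardS2.trans S2.hardS2_EA poly_red (fun _ _ => trivial) (fun I _ => red_correct I)

end Pool.Agent.NPC.MEE
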